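import Pool.Agent.H81.DH.Step

/-!
JOB DH-OPT. The density Hales-Jewett theorem.

PROOF of `dhj_option`. Let `s = sInf {x | 0 ≤ x ∧ ∃ finite ι, ∀ A : Set (ι → Option α), ¬ HasLine A → dn A ≤ x}` (`x = 1` belongs to
the set). If `s ≤ 0`: given `δ > 0` there is `x < δ` in the set, hence `DHJ (Option α)`. If `s > 0`: `hup`: there is `x < s + η` in the
set. `hlow`: if `η > 0` and all line free `A` had `dn A < s - η`, then `max (s - η) 0` would be in the set and `< s`. So `step`.

PROOF of `dhj`. `Finite.induction_empty_option` for the property `∀ [Fintype α], Nonempty α → DHJ α` of types; transport along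
`α ≃ α'`; `Option α` with `α` empty: one letter, `ι = Unit`: a set of positive density is nonempty, there is only one
word, and the line with `idxFun = fun _ => none` works.
-/

set_option autoImplicit false

open Combinatorics

namespace Pool.Agent.H81.DH

theorem dhj_option {α : Type} [Fintype α] [Nonempty α] (hα : DHJ α) : DHJ (Option α) := by
  let S : Set ℝ := {x | 0 ≤ x ∧ ∃ (ι : Type) (_ : Fintype ι) (_ : DecidableEq ι),
    ∀ A : Set (ι → Option α), ¬ HasLine A → dn A ≤ x}
  have hbdd : BddBelow S := ⟨0, fun x hx => hx.1⟩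
  have h1 : (1 : ℝ) ∈ S := ⟨zero_le_one, Unit, inferInstance, inferInstance, fun A _ => dn_le_one A⟩
  have hne : S.Nonempty := ⟨1, h1⟩
  have hs1 : sInf S ≤ 1 := csInf_le hbdd h1
  rcases le_or_gt (sInf S) 0 with hs | hs
  · intro δ hδ
    obtain ⟨x, ⟨_, ι, hι, hι', hx⟩, hxδ⟩ := exists_lt_of_csInf_lt hne (lt_of_le_of_lt hs hδ)
    refine ⟨ι, hι, hι', fun A hA => ?_⟩
    by_contra hno
    have := hx A hno
    linarith
  · exfalso
    refine step hα hs hs1 ?_ ?_
    · intro η hη
      obtain ⟨x, ⟨_, ι, hι, hι', hx⟩, hxη⟩ :=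
        exists_lt_of_csInf_lt hne (show sInf S < sInf S + η by linarith)
      exact ⟨ι, hι, hι', fun A hA => (hx A hA).trans hxη.le⟩
    · intro η hη ι _ _
      by_contra hno
      push Not at hno
      have hmem : max (sInf S - η) 0 ∈ S :=
        ⟨le_max_right _ _, ι, inferInstance, inferInstance,
          fun A hA => (hno A hA).le.trans (le_max_left _ _)⟩
      have h2 : sInf S ≤ max (sInf S - η) 0 := csInf_le hbdd hmem
      have h3 : max (sInf S - η) 0 < sInf S := max_lt (by linarith) hs
      exact absurd h2 (not_le.mpr h3)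

/-- transport along a bijection of alphabets -/
theorem dhj_equiv {α β : Type} [Fintype α] [Fintype β] (e : α ≃ β) (h : DHJ α) : DHJ β := by
  intro δ hδ
  obtain ⟨ι, hι, hι', hA⟩ := h δ hδ
  refine ⟨ι, hι, hι', fun A hdA => ?_⟩
  have h1 : dn {x : ι → α | (Equiv.arrowCongr (Equiv.refl ι) e) x ∈ A} = dn A := dn_equiv _ A
  obtain ⟨l, hl⟩ := hA {x : ι → α | (Equiv.arrowCongr (Equiv.refl ι) e) x ∈ A} (by rw [h1]; exact hdA)
  refine ⟨l.map e, fun b => ?_⟩
  have h2 := hl (e.symm b)
  have h3 : (l.map e) b = e ∘ l (e.symm b) := by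
    have := Line.map_apply e l (e.symm b)
    rwa [e.apply_symm_apply] at this
  rw [h3]
  exact h2

/-- an alphabet with one letter -/
theorem dhj_subsingleton {α : Type} [Fintype α] [Subsingleton α] : DHJ α := by
  intro δ hδ
  refine ⟨Unit, inferInstance, inferInstance, fun A hA => ?_⟩
  obtain ⟨x, hx⟩ := exists_mem_of_dn_pos (lt_of_lt_of_le hδ hA)
  refine ⟨⟨fun _ => none, ⟨(), rfl⟩⟩, fun a => ?_⟩
  have : (⟨fun _ => none, ⟨(), rfl⟩⟩ : Line α Unit) a = x := Subsingleton.elim _ _
  rw [this]
  exact hx

/-- one more letter, the old alphabet may be empty -/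
theorem dhj_option_all {β : Type} [Fintype β] (ih : Nonempty β → DHJ β) : DHJ (Option β) := by
  rcases isEmpty_or_nonempty β with hβ | hβ
  · exact dhj_subsingleton
  · exact dhj_option (ih hβ)

theorem dhj (α : Type) [Fintype α] [Nonempty α] : DHJ α := by
  have key : ∀ (α : Type) [Finite α], ∀ (_ : Fintype α), Nonempty α → DHJ α := by
    intro α _
    induction α using Finite.induction_empty_option with
    | of_equiv e ih =>
      intro _ hne
      have := Fintype.ofEquiv _ e.symm
      exact dhj_equiv e (ih inferInstance (e.nonempty_congr.mpr hne))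
    | h_empty =>
      intro _ hne
      exact (IsEmpty.false hne.some).elim
    | @h_option β _ ih =>
      intro hF _
      exact @dhj_equiv (Option β) (Option β) instFintypeOption hF (Equiv.refl _)
        (dhj_option_all (ih inferInstance))
  exact key α inferInstance inferInstance

end Pool.Agent.H81.DH
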