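import Pool.Agent.H81.DH.Opt

/-!
JOB DH-MAIN. Applications.

PROOF of `scales`. `k = 0`: trivial (`n = 0`, `s = 0`, `d = 1`). For `k ≥ 1`, `dhj (Fin k) δ` gives `ι`; transport to `Fin n`,
`n = card ι`. The set `{w | ∑ (w i : ℕ) ∈ A}` has density `≥ δ`, so contains a line `l`; `d` = number of `i` with
`l.idxFun i = none` (`> 0`), `s` = sum of the other letters; `∑_i (l j i : ℕ) = s + j d`.

PROOF of `szemeredi`. Take `n` from `scales k (δ/2)` (`k ≥ 1`). For `w : Fin n → Fin k`, `∑_{t < N} [t + ∑ w ∈ A] ≥ #A - n k`. So some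
`t < N` has `∑_w [t + ∑ w ∈ A] ≥ k^n (#A - n k)/N ≥ (δ/2) k^n` when `N ≥ 2 n k/δ`. Apply `scales` to `{x | t + x ∈ A}`.
-/

set_option autoImplicit false

open Combinatorics

namespace Pool.Agent.H81.DH

/-- a line adds a multiple of the number of its active coordinates -/
theorem main_line_sum {k : ℕ} {ι : Type} [Fintype ι] (l : Line (Fin k) ι) (j : Fin k) :
    ∑ i, (l j i : ℕ) =
      (∑ i, (l.idxFun i).elim 0 (fun c => (c : ℕ))) +
        (j : ℕ) * (Finset.univ.filter fun i => l.idxFun i = none).card := by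
  classical
  rw [Finset.card_filter, Finset.mul_sum, ← Finset.sum_add_distrib]
  refine Finset.sum_congr rfl fun i _ => ?_
  rw [Line.coe_apply]
  cases h : l.idxFun i <;> simp

/-- the form used for scales -/
theorem scales (k : ℕ) {δ : ℝ} (hδ : 0 < δ) : ∃ n : ℕ, ∀ A : Set ℕ,
    δ * (k : ℝ) ^ n ≤ ∑ w : Fin n → Fin k, ind A (∑ i, (w i : ℕ)) →
    ∃ s d : ℕ, 0 < d ∧ ∀ j < k, s + j * d ∈ A := by
  rcases Nat.eq_zero_or_pos k with rfl | hk
  · exact ⟨0, fun A _ => ⟨0, 1, one_pos, fun j hj => absurd hj (Nat.not_lt_zero j)⟩⟩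
  have : Nonempty (Fin k) := ⟨⟨0, hk⟩⟩
  obtain ⟨ι, hι, hd, h⟩ := dhj (Fin k) δ hδ
  refine ⟨Fintype.card ι, fun A hA => ?_⟩
  let e : ι ≃ Fin (Fintype.card ι) := Fintype.equivFin ι
  let B : Set (ι → Fin k) := {w | ∑ i, (w i : ℕ) ∈ A}
  have hB : δ ≤ dn B := by
    unfold dn
    have h1 : (Fintype.card (ι → Fin k) : ℝ) = (k : ℝ) ^ Fintype.card ι := by
      rw [Fintype.card_fun, Fintype.card_fin]
      push_cast
      rfl
    have h2 : ∑ x : ι → Fin k, ind B x =
        ∑ w : Fin (Fintype.card ι) → Fin k, ind A (∑ i, (w i : ℕ)) := by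
      refine Fintype.sum_equiv (Equiv.arrowCongr e (Equiv.refl _)) _ _ fun x => ?_
      have h3 : ∑ i, ((Equiv.arrowCongr e (Equiv.refl (Fin k)) x) i : ℕ) = ∑ i, (x i : ℕ) := by
        refine Fintype.sum_equiv e.symm _ _ fun i => ?_
        simp [Equiv.arrowCongr]
      rw [h3]
      by_cases hx : ∑ i, (x i : ℕ) ∈ A
      · rw [ind_of_mem hx, ind_of_mem (A := B) hx]
      · rw [ind_of_notMem hx, ind_of_notMem (A := B) hx]
    rw [h1, h2, le_div_iff₀ (pow_pos (Nat.cast_pos.2 hk) _)]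
    exact hA
  obtain ⟨l, hl⟩ := h B hB
  refine ⟨∑ i, (l.idxFun i).elim 0 (fun c => (c : ℕ)),
    (Finset.univ.filter fun i => l.idxFun i = none).card, ?_, ?_⟩
  · rw [Finset.card_pos]
    obtain ⟨i, hi⟩ := l.proper
    exact ⟨i, Finset.mem_filter.2 ⟨Finset.mem_univ _, hi⟩⟩
  · intro j hj
    have := hl ⟨j, hj⟩
    have h4 : ∑ i, (l ⟨j, hj⟩ i : ℕ) ∈ A := this
    rw [main_line_sum] at h4
    exact h4

/-- counting the translates -/
theorem main_count (A : Finset ℕ) (N u : ℕ) (hA : A ⊆ Finset.range N) :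
    (A.card : ℝ) - u ≤ ∑ t ∈ Finset.range N, ind (A : Set ℕ) (t + u) := by
  classical
  have h1 : ∑ t ∈ Finset.range N, ind (A : Set ℕ) (t + u) =
      (((Finset.range N).filter fun t => t + u ∈ A).card : ℝ) := by
    rw [Finset.card_filter]
    push_cast
    refine Finset.sum_congr rfl fun t _ => ?_
    by_cases h : t + u ∈ A
    · rw [ind_of_mem (A := (A : Set ℕ)) (by exact_mod_cast h), if_pos h]
    · rw [ind_of_notMem (A := (A : Set ℕ)) (by exact_mod_cast h), if_neg h]
  rw [h1, sub_le_iff_le_add]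
  have h2 : A ⊆ (((Finset.range N).filter fun t => t + u ∈ A).image fun t => t + u) ∪
      Finset.range u := by
    intro a ha
    rw [Finset.mem_union]
    by_cases h : a < u
    · exact Or.inr (Finset.mem_range.2 h)
    · left
      rw [Finset.mem_image]
      have haN := Finset.mem_range.1 (hA ha)
      refine ⟨a - u, Finset.mem_filter.2 ⟨Finset.mem_range.2 (by omega), ?_⟩, by omega⟩
      rw [Nat.sub_add_cancel (not_lt.1 h)]
      exact ha
  have h3 : A.card ≤ ((Finset.range N).filter fun t => t + u ∈ A).card + u := by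
    calc A.card ≤ _ := Finset.card_le_card h2
      _ ≤ (((Finset.range N).filter fun t => t + u ∈ A).image fun t => t + u).card +
          (Finset.range u).card := Finset.card_union_le _ _
      _ ≤ _ := by
          rw [Finset.card_range]
          exact Nat.add_le_add_right Finset.card_image_le _
  exact_mod_cast h3

/-- Szemeredi's theorem -/
theorem szemeredi (k : ℕ) {δ : ℝ} (hδ : 0 < δ) : ∃ N₀ : ℕ, ∀ N : ℕ, N₀ ≤ N → ∀ A : Finset ℕ,
    A ⊆ Finset.range N → δ * N ≤ (A.card : ℝ) → ∃ s d : ℕ, 0 < d ∧ ∀ j < k, s + j * d ∈ A := by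
  classical
  rcases Nat.eq_zero_or_pos k with rfl | hk
  · exact ⟨0, fun N _ A _ _ => ⟨0, 1, one_pos, fun j hj => absurd hj (Nat.not_lt_zero j)⟩⟩
  obtain ⟨n, hn⟩ := scales k (half_pos hδ)
  refine ⟨max 1 ⌈2 * n * k / δ⌉₊, fun N hN A hA hcard => ?_⟩
  have hN1 : 1 ≤ N := le_trans (le_max_left _ _) hN
  have hN2 : 2 * (n : ℝ) * k / δ ≤ N :=
    (Nat.le_ceil _).trans (by exact_mod_cast le_trans (le_max_right _ _) hN)
  rw [div_le_iff₀ hδ] at hN2
  have hk' : (0 : ℝ) < k := Nat.cast_pos.2 hk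
  -- the double sum
  have h1 : ∑ _t ∈ Finset.range N, δ / 2 * (k : ℝ) ^ n ≤
      ∑ t ∈ Finset.range N, ∑ w : Fin n → Fin k, ind (A : Set ℕ) (t + ∑ i, (w i : ℕ)) := by
    rw [Finset.sum_comm]
    calc ∑ _t ∈ Finset.range N, δ / 2 * (k : ℝ) ^ n
        = ∑ _w : Fin n → Fin k, δ / 2 * N := by
          rw [Finset.sum_const, Finset.card_range, nsmul_eq_mul, Finset.sum_const,
            Finset.card_univ, Fintype.card_fun, Fintype.card_fin, Fintype.card_fin, nsmul_eq_mul]
          push_cast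
          ring
      _ ≤ _ := by
          refine Finset.sum_le_sum fun w _ => ?_
          have h2 := main_count A N (∑ i, (w i : ℕ)) hA
          have h3 : ((∑ i, (w i : ℕ) : ℕ) : ℝ) ≤ n * k := by
            have : ∑ i, (w i : ℕ) ≤ n * k := by
              calc ∑ i, (w i : ℕ) ≤ ∑ _i : Fin n, k :=
                    Finset.sum_le_sum fun i _ => (w i).2.le
                _ = n * k := by simp
            exact_mod_cast this
          linarith
  obtain ⟨t, ht, h4⟩ := Finset.exists_le_of_sum_le (Finset.nonempty_range_iff.2 (by omega)) h1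
  obtain ⟨s, d, hd, h5⟩ := hn {x | t + x ∈ A} (by
    refine h4.trans (le_of_eq ?_)
    refine Finset.sum_congr rfl fun w _ => ?_
    by_cases h : t + ∑ i, (w i : ℕ) ∈ A
    · rw [ind_of_mem (A := (A : Set ℕ)) (by exact_mod_cast h),
        ind_of_mem (A := {x | t + x ∈ A}) h]
    · rw [ind_of_notMem (A := (A : Set ℕ)) (by exact_mod_cast h),
        ind_of_notMem (A := {x | t + x ∈ A}) h])
  refine ⟨t + s, d, hd, fun j hj => ?_⟩
  have := h5 j hj
  rw [add_assoc]
  exact this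

end Pool.Agent.H81.DH
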