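import Pool.Agent.H81.DH.Defs

set_option autoImplicit false

open Combinatorics

namespace Pool.Agent.H81.DH

/-! ### Indicators and densities -/

section dens
variable {X : Type*}

theorem ind_of_mem {A : Set X} {x : X} (h : x ∈ A) : ind A x = 1 := by simp [ind, h]

theorem ind_of_notMem {A : Set X} {x : X} (h : x ∉ A) : ind A x = 0 := by simp [ind, h]

theorem ind_nonneg (A : Set X) (x : X) : 0 ≤ ind A x := by
  by_cases h : x ∈ A
  · rw [ind_of_mem h]; exact zero_le_one
  · rw [ind_of_notMem h]

theorem ind_le_one (A : Set X) (x : X) : ind A x ≤ 1 := by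
  by_cases h : x ∈ A
  · rw [ind_of_mem h]
  · rw [ind_of_notMem h]; exact zero_le_one

theorem ind_mono {A B : Set X} (h : A ⊆ B) (x : X) : ind A x ≤ ind B x := by
  by_cases hx : x ∈ A
  · rw [ind_of_mem hx, ind_of_mem (h hx)]
  · rw [ind_of_notMem hx]; exact ind_nonneg B x

theorem ind_compl (A : Set X) (x : X) : ind Aᶜ x = 1 - ind A x := by
  by_cases h : x ∈ A
  · rw [ind_of_mem h, ind_of_notMem (by simpa using h)]; ring
  · rw [ind_of_notMem h, ind_of_mem (by simpa using h)]; ring

theorem ind_inter (A B : Set X) (x : X) : ind (A ∩ B) x = ind A x * ind B x := by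
  by_cases h : x ∈ A
  · by_cases h' : x ∈ B
    · rw [ind_of_mem h, ind_of_mem h', ind_of_mem (A := A ∩ B) ⟨h, h'⟩]; ring
    · rw [ind_of_notMem h', ind_of_notMem (fun hh => h' hh.2)]; ring
  · rw [ind_of_notMem h, ind_of_notMem (fun hh => h hh.1)]; ring

variable [Fintype X]

theorem dn_nonneg (A : Set X) : 0 ≤ dn A :=
  div_nonneg (Finset.sum_nonneg fun x _ => ind_nonneg A x) (Nat.cast_nonneg _)

theorem sum_ind_le (A : Set X) : ∑ x, ind A x ≤ Fintype.card X := by
  calc ∑ x, ind A x ≤ ∑ _x : X, (1 : ℝ) := Finset.sum_le_sum fun x _ => ind_le_one A x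
    _ = Fintype.card X := by simp

theorem dn_le_one (A : Set X) : dn A ≤ 1 := by
  unfold dn
  rcases (Nat.cast_nonneg (α := ℝ) (Fintype.card X)).eq_or_lt with h | h
  · rw [← h, div_zero]; exact zero_le_one
  · rw [div_le_one h]; exact sum_ind_le A

theorem dn_mono {A B : Set X} (h : A ⊆ B) : dn A ≤ dn B :=
  div_le_div_of_nonneg_right (Finset.sum_le_sum fun x _ => ind_mono h x) (Nat.cast_nonneg _)

theorem sum_ind [Nonempty X] (A : Set X) : ∑ x, ind A x = dn A * Fintype.card X := by
  unfold dn
  rw [div_mul_cancel₀]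
  exact_mod_cast Fintype.card_ne_zero

theorem dn_univ [Nonempty X] : dn (Set.univ : Set X) = 1 := by
  unfold dn
  have : ∑ x : X, ind (Set.univ : Set X) x = Fintype.card X := by
    simp [ind]
  rw [this, div_self]
  exact_mod_cast Fintype.card_ne_zero

theorem dn_compl [Nonempty X] (A : Set X) : dn Aᶜ = 1 - dn A := by
  have h : (Fintype.card X : ℝ) ≠ 0 := by exact_mod_cast Fintype.card_ne_zero
  unfold dn
  simp only [ind_compl]
  rw [Finset.sum_sub_distrib, sub_div]
  simp

theorem dn_pos_of_mem {A : Set X} {x : X} (h : x ∈ A) : 0 < dn A := by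
  have : Nonempty X := ⟨x⟩
  unfold dn
  apply div_pos
  · refine lt_of_lt_of_le ?_ (Finset.single_le_sum (fun x _ => ind_nonneg A x) (Finset.mem_univ x))
    rw [ind_of_mem h]; exact one_pos
  · exact_mod_cast Fintype.card_pos

theorem exists_mem_of_dn_pos {A : Set X} (h : 0 < dn A) : ∃ x, x ∈ A := by
  by_contra hne
  push Not at hne
  have : dn A = 0 := by
    unfold dn
    rw [Finset.sum_eq_zero fun x _ => ind_of_notMem (hne x), zero_div]
  linarith

theorem dn_equiv {Y : Type*} [Fintype Y] (e : X ≃ Y) (A : Set Y) : dn {x | e x ∈ A} = dn A := by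
  unfold dn
  rw [Fintype.card_congr e]
  congr 1
  exact Equiv.sum_comp e (fun y => ind A y)

end dens

/-! ### Words over a sum of index types -/

section words
variable {α β ι κ η ζ : Type}

theorem sum_word [Fintype β] [Fintype ι] [Fintype κ] [DecidableEq ι] [DecidableEq κ]
    (f : (ι ⊕ κ → β) → ℝ) : ∑ w, f w = ∑ x : ι → β, ∑ z : κ → β, f (Sum.elim x z) := by
  rw [← Fintype.sum_prod_type']
  symm
  exact Equiv.sum_comp (Equiv.sumArrowEquivProdArrow ι κ β).symm f

theorem card_word [Fintype β] [Fintype ι] [Fintype κ] [DecidableEq ι] [DecidableEq κ] :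
    (Fintype.card (ι ⊕ κ → β) : ℝ) = Fintype.card (ι → β) * Fintype.card (κ → β) := by
  rw [← Nat.cast_mul, ← Fintype.card_prod]
  congr 1
  exact Fintype.card_congr (Equiv.sumArrowEquivProdArrow ι κ β)

theorem sum_dn [Fintype β] [Fintype ι] [Fintype κ] [DecidableEq ι] [DecidableEq κ] [Nonempty β]
    (A : Set (ι ⊕ κ → β)) :
    ∑ x : ι → β, dn {z : κ → β | Sum.elim x z ∈ A} = dn A * Fintype.card (ι → β) := by
  unfold dn
  rw [sum_word, card_word]
  have h1 : (Fintype.card (ι → β) : ℝ) ≠ 0 := by exact_mod_cast Fintype.card_ne_zero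
  have h2 : (Fintype.card (κ → β) : ℝ) ≠ 0 := by exact_mod_cast Fintype.card_ne_zero
  rw [← Finset.sum_div]
  field_simp
  rfl

@[simp] theorem comp_apply (V : Subspace η α ι) (U : Subspace ζ α η) (x : ζ → α) :
    comp V U x = V (U x) := by
  funext i
  simp only [Subspace.apply_def, comp]
  cases h : V.idxFun i <;> simp [Subspace.apply_def]

@[simp] theorem fixL_apply (x : ι → β) (V : Subspace η β κ) (v : η → β) :
    fixL x V v = Sum.elim x (V v) := by
  funext i
  cases i <;> simp [Subspace.apply_def, fixL]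

@[simp] theorem fixR_apply (V : Subspace η β ι) (z : κ → β) (v : η → β) :
    fixR V z v = Sum.elim (V v) z := by
  funext i
  cases i <;> simp [Subspace.apply_def, fixR]

@[simp] theorem getA_ups (a : α) (x : ι → α) : getA a (ups x) = x := rfl

theorem getA_lift (U : Subspace η α ι) (a : α) (y : η → Option α) :
    getA a (lift U y) = U (getA a y) := by
  funext i
  simp only [getA, Subspace.apply_def, lift]
  cases h : U.idxFun i <;> simp [getA]

theorem lift_ups (U : Subspace η α ι) (x : η → α) : lift U (ups x) = ups (U x) := by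
  funext i
  simp only [ups, Subspace.apply_def, lift]
  cases h : U.idxFun i <;> simp [ups]

theorem getA_sub (V : Subspace η (Option α) ι) (a : α) (y : η → Option α) :
    getA a (V (ups (getA a y))) = getA a (V y) := by
  funext i
  simp only [getA, Subspace.apply_def]
  cases h : V.idxFun i <;> simp [ups, getA]

theorem getA_elim (a : α) (x : ι → Option α) (z : κ → Option α) :
    getA a (Sum.elim x z) = Sum.elim (getA a x) (getA a z) := by
  funext i
  cases i <;> simp [getA]

theorem ups_elim (x : ι → α) (z : κ → α) :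
    ups (Sum.elim x z) = Sum.elim (ups x) (ups z) := by
  funext i
  cases i <;> simp [ups]

/-- membership depends only on `getA a y` -/
theorem ins_iff {a : α} {B : Set (ι → Option α)} :
    Ins a B ↔ ∀ y y', getA a y = getA a y' → (y ∈ B ↔ y' ∈ B) := by
  constructor
  · intro h y y' hyy
    rw [h y, h y', hyy]
  · intro h y
    exact h _ _ rfl

theorem Ins.compl {a : α} {B : Set (ι → Option α)} (h : Ins a B) : Ins a Bᶜ := by
  intro y
  rw [Set.mem_compl_iff, Set.mem_compl_iff, h y]

theorem Ins.univ (a : α) : Ins a (Set.univ : Set (ι → Option α)) := by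
  intro y; simp

theorem Ins.pull {a : α} {B : Set (ι → Option α)} (h : Ins a B) (V : Subspace η (Option α) ι) :
    Ins a {v | V v ∈ B} := by
  rw [ins_iff] at h ⊢
  intro y y' hyy
  refine h _ _ ?_
  rw [← getA_sub V a y, ← getA_sub V a y', hyy]

/-- the sets `D_a` of the density increment are insensitive -/
theorem ins_getA {A : Set (ι → Option α)} (W : Subspace η (Option α) ι) (a : α) :
    Ins a {v | ups (getA a (W v)) ∈ A} := by
  intro y
  show _ ↔ ups (getA a (W (ups (getA a y)))) ∈ A
  rw [getA_sub]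
  rfl

/-! ### Lines -/

/-- a line over `α` is a word over `Option α` with a letter `none` -/
theorem hasLine_iff {B : Set (ι → α)} :
    HasLine B ↔ ∃ y : ι → Option α, (∃ i, y i = none) ∧ ∀ a, getA a y ∈ B := by
  constructor
  · rintro ⟨l, hl⟩
    exact ⟨l.idxFun, l.proper, fun a => hl a⟩
  · rintro ⟨y, hy, h⟩
    exact ⟨⟨y, hy⟩, fun a => h a⟩

/-- the line over `Option α` given by a word with a letter `none` -/
theorem hasLine_of_word {A : Set (ι → Option α)} {y : ι → Option α} (h0 : ∃ i, y i = none)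
    (hy : y ∈ A) (h : ∀ a, ups (getA a y) ∈ A) : HasLine A := by
  refine ⟨⟨fun i => (y i).map some, ?_⟩, ?_⟩
  · obtain ⟨i, hi⟩ := h0
    exact ⟨i, by rw [hi]; rfl⟩
  · intro b
    cases b with
    | none =>
      convert hy using 1
      funext i
      cases h' : y i <;> simp [h']
    | some a =>
      convert h a using 1
      funext i
      cases h' : y i <;> simp [h', ups, getA]

theorem HasLine.mono {A B : Set (ι → α)} (h : HasLine A) (hAB : A ⊆ B) : HasLine B := by
  obtain ⟨l, hl⟩ := h
  exact ⟨l, fun a => hAB (hl a)⟩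

theorem HasLine.of_pull {A : Set (ι → α)} (V : Subspace η α ι) (h : HasLine {v | V v ∈ A}) :
    HasLine A := by
  obtain ⟨l, hl⟩ := h
  refine ⟨⟨fun i => (V.idxFun i).elim some l.idxFun, ?_⟩, ?_⟩
  · obtain ⟨e, he⟩ := l.proper
    obtain ⟨i, hi⟩ := V.proper e
    exact ⟨i, by rw [hi]; exact he⟩
  · intro a
    have h2 : V (l a) ∈ A := hl a
    convert h2 using 1
    funext i
    simp only [Line.coe_apply, Subspace.apply_def]
    cases h' : V.idxFun i <;> simp

theorem HasLine.of_sliceR {A : Set (ι ⊕ κ → α)} (x : ι → α) (h : HasLine {z : κ → α | Sum.elim x z ∈ A}) :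
    HasLine A := by
  obtain ⟨l, hl⟩ := h
  refine ⟨⟨Sum.elim (fun i => some (x i)) l.idxFun, ?_⟩, ?_⟩
  · obtain ⟨e, he⟩ := l.proper
    exact ⟨Sum.inr e, he⟩
  · intro a
    have h2 : Sum.elim x (l a) ∈ A := hl a
    convert h2 using 1
    funext i
    cases i <;> simp

theorem HasLine.of_sliceL {A : Set (ι ⊕ κ → α)} (z : κ → α) (h : HasLine {x : ι → α | Sum.elim x z ∈ A}) :
    HasLine A := by
  obtain ⟨l, hl⟩ := h
  refine ⟨⟨Sum.elim l.idxFun (fun i => some (z i)), ?_⟩, ?_⟩
  · obtain ⟨e, he⟩ := l.proper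
    exact ⟨Sum.inl e, he⟩
  · intro a
    have h2 : Sum.elim (l a) z ∈ A := hl a
    convert h2 using 1
    funext i
    cases i <;> simp

theorem sub_injective (V : Subspace η α ι) : Function.Injective (fun v : η → α => V v) := by
  intro v v' h
  funext e
  obtain ⟨i, hi⟩ := V.proper e
  have := congrFun h i
  simpa [Subspace.apply_def, hi] using this

end words

end Pool.Agent.H81.DH
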