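import Pool.Agent.H81.DH.Multi

/-!
JOB DH-COND. A dense set of words over `Option α` which is insensitive (`a` against `none`) contains a subspace over
`Option α`.

PROOF. Let `n₁` be the number of `mdhj` for `M`, `ε/2`. Let `ι = Fin d`, `d` large. Words `y : ι → Option α` correspond to
pairs `(F, x)`, `F = {i | y i ≠ none}` (a Finset), `x : F → α`; write `ext F x`. For fixed `F` let
`B_F = {x : F → α | ext F x ∈ B}`. If for some `F` with `n₁ ≤ #F` we have `ε/2 ≤ dn B_F`, then `mdhj` gives
`V' : Subspace M α F` in `B_F`; let `V` have `idxFun i = (V'.idxFun i).map some id` for `i ∈ F` and `inl none` for `i ∉ F`. For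
`v = ups v'`: `V v = ext F (V' v') ∈ B`. For general `v`: `getA a (V v) = getA a (V (ups (getA a v)))` (`getA_sub`), so `V v ∈ B` by
`ins_iff`. Otherwise `#B = ∑_F #B_F ≤ ∑_F (ε/2) k^{#F} + #{y : #F(y) < n₁} < (ε/2) (k+1)^d + (ε/2) (k+1)^d`, `k = card α`, since
`∑_F k^{#F} = (k+1)^d` is the number of all words, and the number of words with `#F < n₁` is at most
`∑_{j<n₁} (d choose j) k^j ≤ n₁ (d k)^{n₁} + ...` (polynomial in `d`), which is `< (ε/2) 2^d` for large `d`. (Any crude bound
works: a word with `#F < n₁` is determined by the list of at most `n₁` pairs (place, letter), so their number is at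
most `(1 + d k)^{n₁}`.)
-/

set_option autoImplicit false

open Combinatorics

namespace Pool.Agent.H81.DH

/-- the places with a letter of `α` -/
def condSupp {α : Type} {d : ℕ} (y : Fin d → Option α) : Finset (Fin d) :=
  Finset.univ.filter fun i => (y i).isSome

/-- the word which is `x` on `F` and `none` elsewhere -/
def condExt {α : Type} {d : ℕ} (F : Finset (Fin d)) (x : {i // i ∈ F} → α) : Fin d → Option α :=
  fun i => if h : i ∈ F then some (x ⟨i, h⟩) else none

theorem condExt_mem {α : Type} {d : ℕ} {F : Finset (Fin d)} (x : {i // i ∈ F} → α) {i : Fin d}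
    (h : i ∈ F) : condExt F x i = some (x ⟨i, h⟩) := by
  simp [condExt, h]

theorem condExt_notMem {α : Type} {d : ℕ} {F : Finset (Fin d)} (x : {i // i ∈ F} → α) {i : Fin d}
    (h : i ∉ F) : condExt F x i = none := by
  simp [condExt, h]

theorem condSupp_ext {α : Type} {d : ℕ} (F : Finset (Fin d)) (x : {i // i ∈ F} → α) :
    condSupp (condExt F x) = F := by
  ext i
  simp only [condSupp, Finset.mem_filter, Finset.mem_univ, true_and]
  by_cases h : i ∈ F
  · simp [condExt_mem x h, h]
  · simp [condExt_notMem x h, h]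

theorem cond_sum {α : Type} [Fintype α] {d : ℕ} (F : Finset (Fin d)) (g : (Fin d → Option α) → ℝ) :
    ∑ y ∈ Finset.univ.filter (fun y : Fin d → Option α => condSupp y = F), g y =
      ∑ x : {i // i ∈ F} → α, g (condExt F x) := by
  symm
  refine Finset.sum_bij (fun x _ => condExt F x) ?_ ?_ ?_ ?_
  · intro x _
    simp [condSupp_ext]
  · intro x _ x' _ h
    funext ⟨i, hi⟩
    have := congrFun h i
    simpa [condExt_mem _ hi] using this
  · intro y hy
    rw [Finset.mem_filter] at hy
    have hs : ∀ i : Fin d, i ∈ F ↔ (y i).isSome := by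
      intro i
      rw [← hy.2]
      simp [condSupp]
    refine ⟨fun i => (y i.1).get ((hs i.1).1 i.2), Finset.mem_univ _, ?_⟩
    funext i
    by_cases h : i ∈ F
    · rw [condExt_mem _ h]
      simp
    · rw [condExt_notMem _ h]
      rw [hs i, Option.not_isSome_iff_eq_none] at h
      exact h.symm
  · intro x _
    rfl

theorem cond_prod {α : Type} {d : ℕ} (y : Fin d → Option α) :
    ∏ i, (if (y i).isSome then (1 / 2 : ℝ) else 1) = (1 / 2) ^ (condSupp y).card := by
  rw [Finset.prod_ite]
  simp [condSupp]

theorem cond_moment {α : Type} [Fintype α] (d : ℕ) :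
    ∑ y : Fin d → Option α, ∏ i, (if (y i).isSome then (1 / 2 : ℝ) else 1) =
      (1 + (Fintype.card α : ℝ) / 2) ^ d := by
  have h := Finset.prod_univ_sum (fun _ : Fin d => (Finset.univ : Finset (Option α)))
    (fun _ b => if b.isSome then (1 / 2 : ℝ) else 1)
  rw [Fintype.piFinset_univ] at h
  rw [← h, Finset.prod_const, Finset.card_univ, Fintype.card_fin]
  congr 1
  rw [Fintype.sum_option]
  simp
  ring

/-- the subspace over `Option α` given by a subspace over `α` of the words with support `F` -/
def condSub {α : Type} {d : ℕ} {M : Type} (F : Finset (Fin d)) (V : Subspace M α {i // i ∈ F}) :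
    Subspace M (Option α) (Fin d) where
  idxFun i := if h : i ∈ F then (V.idxFun ⟨i, h⟩).map some id else Sum.inl none
  proper e := by
    obtain ⟨i, hi⟩ := V.proper e
    refine ⟨i.1, ?_⟩
    rw [dif_pos i.2, hi]
    rfl

theorem condSub_ups {α : Type} {d : ℕ} {M : Type} (F : Finset (Fin d)) (V : Subspace M α {i // i ∈ F})
    (v : M → α) : condSub F V (ups v) = condExt F (V v) := by
  funext i
  by_cases h : i ∈ F
  · rw [condExt_mem _ h]
    simp only [Subspace.apply_def, condSub, dif_pos h]
    cases hV : V.idxFun ⟨i, h⟩ <;> simp [ups]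
  · rw [condExt_notMem _ h]
    simp [Subspace.apply_def, condSub, dif_neg h]

theorem ins_sub {α : Type} [Fintype α] [Nonempty α] (hα : DHJ α) (M : Type) [Finite M] {ε : ℝ} (hε : 0 < ε) :
    ∃ (ι : Type) (_ : Fintype ι) (_ : DecidableEq ι), ∀ (a : α) (B : Set (ι → Option α)), Ins a B →
      ε ≤ dn B → ∃ V : Subspace M (Option α) ι, ∀ v, V v ∈ B := by
  obtain ⟨n₁, hn₁⟩ := mdhj hα M (half_pos hε)
  set k : ℝ := (Fintype.card α : ℝ) with hk
  have hk1 : 1 ≤ k := by
    rw [hk]
    exact_mod_cast Fintype.card_pos
  have hq0 : 0 ≤ (1 + k / 2) / (1 + k) := by positivity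
  have hq1 : (1 + k / 2) / (1 + k) < 1 := by
    rw [div_lt_one (by linarith)]
    linarith
  obtain ⟨d, hd⟩ := exists_pow_lt_of_lt_one (y := (1 + k / 2) / (1 + k))
    (show 0 < ε / 2 / 2 ^ n₁ by positivity) hq1
  refine ⟨Fin d, inferInstance, inferInstance, fun a B hB hdB => ?_⟩
  by_cases hF : ∃ F : Finset (Fin d), n₁ ≤ F.card ∧
      ε / 2 ≤ dn {x : {i // i ∈ F} → α | condExt F x ∈ B}
  · obtain ⟨F, hF1, hF2⟩ := hF
    obtain ⟨V', hV'⟩ := hn₁ {i // i ∈ F} (by simpa using hF1) _ hF2
    refine ⟨condSub F V', fun v => ?_⟩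
    have h1 := ins_iff.1 hB _ _ (getA_sub (condSub F V') a v)
    rw [← h1, condSub_ups]
    exact hV' _
  · exfalso
    push Not at hF
    have hone : ∀ y : Fin d → Option α,
        0 ≤ (2 : ℝ) ^ n₁ * ∏ i, (if (y i).isSome then (1 / 2 : ℝ) else 1) := by
      intro y
      rw [cond_prod]
      positivity
    have hsum : ∑ y : Fin d → Option α, ind B y ≤
        ∑ y : Fin d → Option α,
          (ε / 2 + 2 ^ n₁ * ∏ i, (if (y i).isSome then (1 / 2 : ℝ) else 1)) := by
      rw [← Finset.sum_fiberwise Finset.univ (fun y : Fin d → Option α => condSupp y)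
          (fun y => ind B y),
        ← Finset.sum_fiberwise Finset.univ (fun y : Fin d → Option α => condSupp y)
          (fun y => ε / 2 + 2 ^ n₁ * ∏ i, (if (y i).isSome then (1 / 2 : ℝ) else 1))]
      refine Finset.sum_le_sum fun F _ => ?_
      rcases le_or_gt n₁ F.card with hn | hn
      · have h1 := hF F hn
        have h2 : ∑ y ∈ Finset.univ.filter (fun y : Fin d → Option α => condSupp y = F), ind B y =
            dn {x : {i // i ∈ F} → α | condExt F x ∈ B} *
              Fintype.card ({i // i ∈ F} → α) := by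
          rw [cond_sum, ← sum_ind]
          rfl
        have h3 : ∑ _y ∈ Finset.univ.filter (fun y : Fin d → Option α => condSupp y = F),
            (ε / 2) = ε / 2 * Fintype.card ({i // i ∈ F} → α) := by
          rw [cond_sum, Finset.sum_const, Finset.card_univ, nsmul_eq_mul]
          ring
        calc ∑ y ∈ Finset.univ.filter (fun y : Fin d → Option α => condSupp y = F), ind B y
            ≤ ∑ _y ∈ Finset.univ.filter (fun y : Fin d → Option α => condSupp y = F),
              (ε / 2) := by
              rw [h2, h3]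
              exact mul_le_mul_of_nonneg_right h1.le (Nat.cast_nonneg _)
          _ ≤ _ := by
              refine Finset.sum_le_sum fun y _ => ?_
              linarith [hone y]
      · refine Finset.sum_le_sum fun y hy => ?_
        rw [Finset.mem_filter] at hy
        have h1 : (1 : ℝ) ≤ 2 ^ n₁ * ∏ i, (if (y i).isSome then (1 / 2 : ℝ) else 1) := by
          rw [cond_prod, hy.2]
          calc (1 : ℝ) = 2 ^ F.card * (1 / 2) ^ F.card := by
                rw [← mul_pow]
                norm_num
            _ ≤ 2 ^ n₁ * (1 / 2) ^ F.card := by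
                refine mul_le_mul_of_nonneg_right ?_ (by positivity)
                exact pow_le_pow_right₀ (by norm_num) hn.le
        have h2 := ind_le_one B y
        linarith
    have hcard : (Fintype.card (Fin d → Option α) : ℝ) = (1 + k) ^ d := by
      rw [Fintype.card_fun, Fintype.card_option, Fintype.card_fin]
      push_cast
      rw [hk, add_comm]
    rw [Finset.sum_add_distrib, ← Finset.mul_sum, cond_moment, Finset.sum_const,
      Finset.card_univ, nsmul_eq_mul, hcard, sum_ind, hcard] at hsum
    have hpos : (0 : ℝ) < (1 + k) ^ d := by positivity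
    have h4 : 2 ^ n₁ * (1 + k / 2) ^ d < ε / 2 * (1 + k) ^ d := by
      rw [div_pow, div_lt_iff₀ hpos, div_mul_eq_mul_div, lt_div_iff₀ (by positivity)] at hd
      linarith
    have h5 : ε * (1 + k) ^ d ≤ dn B * (1 + k) ^ d :=
      mul_le_mul_of_nonneg_right hdB hpos.le
    have h6 : 2 ^ n₁ * (1 + (Fintype.card α : ℝ) / 2) ^ d = 2 ^ n₁ * (1 + k / 2) ^ d := by
      rw [hk]
    rw [h6] at hsum
    linarith

end Pool.Agent.H81.DH
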