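import Mathlib

/-!
Density Hales-Jewett theorem: definitions. The proof follows Dodos, Kanellopoulos and Tyros, with a lighter
Ramsey step. `α` is the small alphabet, `Option α` the alphabet with one more letter `none`.
-/

set_option autoImplicit false

open Combinatorics

namespace Pool.Agent.H81.DH

/-- indicator -/
noncomputable def ind {X : Type*} (A : Set X) (x : X) : ℝ := A.indicator (fun _ => (1 : ℝ)) x

/-- density -/
noncomputable def dn {X : Type*} [Fintype X] (A : Set X) : ℝ := (∑ x, ind A x) / Fintype.card X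

/-- `A` contains a combinatorial line -/
def HasLine {α ι : Type} (A : Set (ι → α)) : Prop := ∃ l : Line α ι, ∀ a, l a ∈ A

/-- the density Hales-Jewett theorem for the alphabet `α` -/
def DHJ (α : Type) [Fintype α] : Prop := ∀ δ : ℝ, 0 < δ → ∃ (ι : Type) (_ : Fintype ι) (_ : DecidableEq ι),
  ∀ A : Set (ι → α), δ ≤ dn A → HasLine A

/-- composition of subspaces -/
def comp {α ι η ζ : Type} (V : Subspace η α ι) (U : Subspace ζ α η) : Subspace ζ α ι where
  idxFun i := (V.idxFun i).elim Sum.inl U.idxFun
  proper z := by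
    obtain ⟨e, he⟩ := U.proper z
    obtain ⟨i, hi⟩ := V.proper e
    exact ⟨i, by rw [hi]; exact he⟩

/-- the same subspace over the larger alphabet -/
def lift {α ι η : Type} (U : Subspace η α ι) : Subspace η (Option α) ι where
  idxFun i := (U.idxFun i).map some id
  proper e := by
    obtain ⟨i, hi⟩ := U.proper e
    exact ⟨i, by rw [hi]; rfl⟩

/-- replace the letter `none` by `a` -/
def getA {α ι : Type} (a : α) (y : ι → Option α) : ι → α := fun i => (y i).getD a

/-- a word over `α` as a word over `Option α` -/
def ups {α ι : Type} (x : ι → α) : ι → Option α := fun i => some (x i)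

/-- `B` does not see the difference between `a` and `none` -/
def Ins {α ι : Type} (a : α) (B : Set (ι → Option α)) : Prop := ∀ y, y ∈ B ↔ ups (getA a y) ∈ B

/-- tiling property: `E` behaves, up to `ε`, as a disjoint union of subspaces of dimension `M` -/
def Til {β ι : Type} [Fintype β] [Fintype ι] [DecidableEq ι] (M : Type) [Fintype M] [DecidableEq M] (ε : ℝ)
    (E : Set (ι → β)) : Prop :=
  ∀ g : (ι → β) → ℝ, (∀ x, g x ≤ 1) →
    (∀ V : Subspace M β ι, (∀ v, V v ∈ E) → ∑ v : M → β, g (V v) ≤ 0) →
    ∑ x, ind E x * g x ≤ ε * Fintype.card (ι → β)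

/-- a word as a point of `Option α ^ (ι ⊕ κ)` is `Sum.elim x z`; the subspace with first part fixed to `x` -/
def fixL {β ι κ η : Type} (x : ι → β) (V : Subspace η β κ) : Subspace η β (ι ⊕ κ) where
  idxFun := Sum.elim (fun i => Sum.inl (x i)) V.idxFun
  proper e := by
    obtain ⟨i, hi⟩ := V.proper e
    exact ⟨Sum.inr i, hi⟩

/-- the subspace with second part fixed to `z` -/
def fixR {β ι κ η : Type} (V : Subspace η β ι) (z : κ → β) : Subspace η β (ι ⊕ κ) where
  idxFun := Sum.elim V.idxFun (fun i => Sum.inl (z i))
  proper e := by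
    obtain ⟨i, hi⟩ := V.proper e
    exact ⟨Sum.inl i, hi⟩

end Pool.Agent.H81.DH
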