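import Pool.Agent.H81.DH.Basic

/-!
JOB DH-GR. The Ramsey step.

PROOF. Induction on `R` (`Finite.induction_empty_option`, for the statement with all `M`; invariance under `R ≃ R'` by
composing with the equivalence). `R` empty: take `N = Empty` (or any type); the hypothesis for the subspace with constant
letters (`α` nonempty) gives `∃ i : R`, a contradiction.
From `R` to `Option R`, given `M`: write `β = Option α`.
1. `M'` from `Subspace.exists_mono_in_high_dimension β α M`: every colouring of `M' → β` by `α` has a monochromatic subspace of
dimension `M`.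
2. `N'` from the induction hypothesis for `R` and `M'`.
3. `N''` from `Subspace.exists_mono_in_high_dimension β Prop (N' ⊕ M)`.
4. The new type is `Option N''`; write `cons b w : Option N'' → β` for `none ↦ b`, `some j ↦ w j`.
Given `G` satisfying the hypothesis for `Option R`: colour `w : N'' → β` by `cons none w ∈ G`, let `V₀` be the monochromatic
subspace of dimension `N' ⊕ M`.
TRUE case: `cons none (V₀ x) ∈ G` for all `x`. `W`: coordinate `none` fixed to the letter `none`; on `N''` the composition of
`V₀` with the subspace of `N' ⊕ M → β` with `inl _ ↦ inl none`, `inr m ↦ inr m`.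
FALSE case: `cons none (V₀ x) ∉ G` for all `x`. `V : Subspace N' β N''` the composition of `V₀` with `inl n ↦ inr n`,
`inr _ ↦ inl none`. For `a : α` let `V_a` be `V` with the fixed letters `none` replaced by `some a`. Put
`G' = {w : N' → β | ∃ a, cons (some a) (V_a w) ∈ G}`. `G'` satisfies the hypothesis for `R`: for `U' : Subspace R α N'` let
`U : Subspace (Option R) α (Option N'')` have `none ↦ inr none`, and `some j ↦ inr none` if `V.idxFun j = inl none`, `inl b` if
`V.idxFun j = inl (some b)`, and for `V.idxFun j = inr e`: `(U'.idxFun e).map id some`. There is `y : Option R → β` with a letter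
`none` and `lift U y ∈ G`. Let `y' = y ∘ some`. If `y none = none`: `lift U y = cons none (V (lift U' y'))`, a contradiction. So
`y none = some a`, `lift U y = cons (some a) (V_a (lift U' y'))`, `y'` has a letter `none`, and `lift U' y' ∈ G'`.
The induction hypothesis gives `W' : Subspace M' β N'` with a fixed letter `none` at some `e₀`, `W' v ∈ G'` for all `v`; choose
`a(v)`; let `l : Subspace M β M'` be monochromatic for `v ↦ a(v)`, of colour `a`. `W`: coordinate `none` fixed to `some a`, on
`N''` the composition `V_a ∘ W' ∘ l`. It has a fixed letter `none`: at `j` with `V.idxFun j = inr e₀`.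
(`V_a` has the same `proper`; fixed letters of `V_a ∘ W' ∘ l` at `j` are those of `W' ∘ l` at `e₀`.)
-/

set_option autoImplicit false

open Combinatorics

namespace Pool.Agent.H81.DH

/-- the word `b` followed by `w` -/
def consW {β ι : Type} (b : β) (w : ι → β) : Option ι → β := fun o => o.elim b w

/-- the subspace with first coordinate fixed to `b` -/
def consS {β ι η : Type} (b : β) (V : Subspace η β ι) : Subspace η β (Option ι) where
  idxFun o := o.elim (Sum.inl b) V.idxFun
  proper e := by
    obtain ⟨i, hi⟩ := V.proper e
    exact ⟨some i, hi⟩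

theorem consS_apply {β ι η : Type} (b : β) (V : Subspace η β ι) (v : η → β) :
    consS b V v = consW b (V v) := by
  funext o
  cases o <;> simp [Subspace.apply_def, consS, consW]

/-- the subspace with the fixed letters `none` replaced by `some a` -/
def fixA {α ι η : Type} (a : α) (V : Subspace η (Option α) ι) : Subspace η (Option α) ι where
  idxFun i := (V.idxFun i).map (fun b => some (b.getD a)) id
  proper e := by
    obtain ⟨i, hi⟩ := V.proper e
    exact ⟨i, by rw [hi]; rfl⟩

/-- the coordinates of the subspace `pullU` -/
def pullI {α R η : Type} (U' : Subspace R α η) : Option α ⊕ η → α ⊕ Option R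
  | Sum.inl none => Sum.inr none
  | Sum.inl (some b) => Sum.inl b
  | Sum.inr e => (U'.idxFun e).map id some

/-- the subspace of dimension `Option R` made from `V` and `U'` -/
def pullU {α ι η R : Type} (V : Subspace η (Option α) ι) (U' : Subspace R α η) :
    Subspace (Option R) α (Option ι) where
  idxFun o := o.elim (Sum.inr none) (fun j => pullI U' (V.idxFun j))
  proper r := by
    cases r with
    | none => exact ⟨none, rfl⟩
    | some r =>
      obtain ⟨e, he⟩ := U'.proper r
      obtain ⟨j, hj⟩ := V.proper e
      refine ⟨some j, ?_⟩
      show pullI U' (V.idxFun j) = _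
      rw [hj]
      show (U'.idxFun e).map id some = _
      rw [he]; rfl

theorem lift_pullU_none {α ι η R : Type} (V : Subspace η (Option α) ι) (U' : Subspace R α η)
    (y : Option R → Option α) (hy : y none = none) :
    lift (pullU V U') y = consW none (V (lift U' (fun r => y (some r)))) := by
  funext o
  cases o with
  | none => simpa [Subspace.apply_def, lift, pullU, consW] using hy
  | some j =>
    show ((pullI U' (V.idxFun j)).map some id).elim id y = V (lift U' (fun r => y (some r))) j
    rw [Subspace.apply_def]
    cases h : V.idxFun j with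
    | inl b =>
      cases b with
      | none => simpa [pullI] using hy
      | some b => simp [pullI]
    | inr e =>
      show (((U'.idxFun e).map id some).map some id).elim id y = lift U' (fun r => y (some r)) e
      rw [Subspace.apply_def]
      show _ = ((U'.idxFun e).map some id).elim id (fun r => y (some r))
      cases h' : U'.idxFun e <;> simp

theorem lift_pullU_some {α ι η R : Type} (V : Subspace η (Option α) ι) (U' : Subspace R α η)
    (y : Option R → Option α) (a : α) (hy : y none = some a) :
    lift (pullU V U') y = consW (some a) (fixA a V (lift U' (fun r => y (some r)))) := by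
  funext o
  cases o with
  | none => simpa [Subspace.apply_def, lift, pullU, consW] using hy
  | some j =>
    show ((pullI U' (V.idxFun j)).map some id).elim id y =
      fixA a V (lift U' (fun r => y (some r))) j
    rw [Subspace.apply_def]
    show _ = ((V.idxFun j).map (fun b => some (b.getD a)) id).elim id _
    cases h : V.idxFun j with
    | inl b =>
      cases b with
      | none => simpa [pullI] using hy
      | some b => simp [pullI]
    | inr e =>
      show (((U'.idxFun e).map id some).map some id).elim id y = lift U' (fun r => y (some r)) e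
      rw [Subspace.apply_def]
      show _ = ((U'.idxFun e).map some id).elim id (fun r => y (some r))
      cases h' : U'.idxFun e <;> simp

/-- the statement, for a type `R` -/
def GR (α : Type) (R : Type) : Prop :=
  ∀ (M : Type) [Finite M], ∃ (N : Type) (_ : Fintype N) (_ : DecidableEq N), ∀ G : Set (N → Option α),
      (∀ U : Subspace R α N, ∃ y : R → Option α, (∃ i, y i = none) ∧ lift U y ∈ G) →
      ∃ W : Subspace M (Option α) N, (∃ i, W.idxFun i = Sum.inl none) ∧ ∀ v, W v ∈ G

/-- a subspace with the directions renamed -/
def renS {α ι R R' : Type} (e : R ≃ R') (U : Subspace R' α ι) : Subspace R α ι where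
  idxFun i := (U.idxFun i).map id e.symm
  proper r := by
    obtain ⟨i, hi⟩ := U.proper (e r)
    exact ⟨i, by rw [hi]; simp⟩

theorem lift_renS {α ι R R' : Type} (e : R ≃ R') (U : Subspace R' α ι) (y : R → Option α) :
    lift (renS e U) y = lift U (fun r => y (e.symm r)) := by
  funext i
  rw [Subspace.apply_def, Subspace.apply_def]
  show (((U.idxFun i).map id e.symm).map some id).elim id y =
    ((U.idxFun i).map some id).elim id (fun r => y (e.symm r))
  cases h : U.idxFun i <;> simp

theorem GR.of_equiv {α R R' : Type} (e : R ≃ R') (h : GR α R) : GR α R' := by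
  intro M _
  obtain ⟨N, hF, hD, hN⟩ := h M
  refine ⟨N, hF, hD, fun G hG => hN G fun U => ?_⟩
  obtain ⟨y, ⟨i, hi⟩, hy⟩ := hG (renS e.symm U)
  refine ⟨fun r => y (e r), ⟨e.symm i, by simpa using hi⟩, ?_⟩
  rw [lift_renS] at hy
  exact hy

theorem GR.empty {α : Type} [Nonempty α] : GR α PEmpty := by
  intro M _
  refine ⟨Empty, inferInstance, inferInstance, fun G hG => ?_⟩
  obtain ⟨y, ⟨i, _⟩, _⟩ := hG ⟨fun i => i.elim, fun e => e.elim⟩
  exact i.elim

/-- the subspace of `N' ⊕ M` with the first part fixed to `none` -/
def subR (α N' M : Type) : Subspace M (Option α) (N' ⊕ M) where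
  idxFun := Sum.elim (fun _ => Sum.inl none) Sum.inr
  proper m := ⟨Sum.inr m, rfl⟩

/-- the subspace of `N' ⊕ M` with the second part fixed to `none` -/
def subL (α N' M : Type) : Subspace N' (Option α) (N' ⊕ M) where
  idxFun := Sum.elim Sum.inr (fun _ => Sum.inl none)
  proper m := ⟨Sum.inl m, rfl⟩

theorem GR.option {α R : Type} [Finite α] (h : GR α R) : GR α (Option R) := by
  classical
  intro M _
  obtain ⟨M', hM'F, hM'⟩ := Subspace.exists_mono_in_high_dimension (Option α) α M
  obtain ⟨N', hN'F, hN'D, hN'⟩ := h M'
  obtain ⟨N'', hN''F, hN''⟩ := Subspace.exists_mono_in_high_dimension (Option α) Prop (N' ⊕ M)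
  refine ⟨Option N'', inferInstance, inferInstance, fun G hG => ?_⟩
  obtain ⟨V₀, c, hc⟩ := hN'' (fun w => consW none w ∈ G)
  by_cases hcT : c
  · refine ⟨consS none (comp V₀ (subR α N' M)), ⟨none, rfl⟩, fun v => ?_⟩
    rw [consS_apply, comp_apply]
    have h1 : (consW none (V₀ (subR α N' M v)) ∈ G) = c := hc (subR α N' M v)
    rw [h1]
    exact hcT
  · have hF : ∀ x, consW none (V₀ x) ∉ G := by
      intro x hx
      have h1 : (consW none (V₀ x) ∈ G) = c := hc x
      exact hcT (by rw [← h1]; exact hx)
    set V : Subspace N' (Option α) N'' := comp V₀ (subL α N' M) with hV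
    have hVF : ∀ x, consW none (V x) ∉ G := by
      intro x
      rw [hV, comp_apply]
      exact hF _
    obtain ⟨W', ⟨e₀, he₀⟩, hW'⟩ := hN' {w | ∃ a, consW (some a) (fixA a V w) ∈ G} (by
      intro U'
      obtain ⟨y, ⟨i, hi⟩, hy⟩ := hG (pullU V U')
      cases hyn : y none with
      | none =>
        rw [lift_pullU_none V U' y hyn] at hy
        exact absurd hy (hVF _)
      | some a =>
        rw [lift_pullU_some V U' y a hyn] at hy
        refine ⟨fun r => y (some r), ?_, a, hy⟩
        cases i with
        | none => rw [hyn] at hi; exact absurd hi (by simp)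
        | some r => exact ⟨r, hi⟩)
    choose a ha using hW'
    obtain ⟨l, a₀, hl⟩ := hM' a
    refine ⟨consS (some a₀) (comp (fixA a₀ V) (comp W' l)), ?_, fun v => ?_⟩
    · obtain ⟨j, hj⟩ := V.proper e₀
      refine ⟨some j, ?_⟩
      show (((V.idxFun j).map (fun b => some (b.getD a₀)) id).elim Sum.inl
        (fun e => (W'.idxFun e).elim Sum.inl l.idxFun)) = Sum.inl none
      rw [hj]
      show (W'.idxFun e₀).elim Sum.inl l.idxFun = Sum.inl none
      rw [he₀]
      rfl
    · rw [consS_apply, comp_apply, comp_apply]
      have h1 := ha (l v)
      rw [hl v] at h1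
      exact h1

theorem gr (α : Type) [Finite α] [Nonempty α] (R : Type) [Finite R] :
    ∀ (M : Type) [Finite M], ∃ (N : Type) (_ : Fintype N) (_ : DecidableEq N), ∀ G : Set (N → Option α),
      (∀ U : Subspace R α N, ∃ y : R → Option α, (∃ i, y i = none) ∧ lift U y ∈ G) →
      ∃ W : Subspace M (Option α) N, (∃ i, W.idxFun i = Sum.inl none) ∧ ∀ v, W v ∈ G := by
  have h : GR α R := Finite.induction_empty_option (P := fun R => GR α R)
    (fun e h => GR.of_equiv e h) GR.empty (fun h => GR.option h) R
  exact h

end Pool.Agent.H81.DH
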