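import Pool.Agent.H81.DH.Basic

/-!
JOB DH-INC. The density increment.

PROOF of `inc`. For `ω` let `A' ω = {v | Sum.elim (W v) ω ∈ A}`, `D ω = {v | ∀ a, Sum.elim (ups (getA a (W v))) ω ∈ A}`.
Summing over `ω` and exchanging the sums (double counting of pairs `(v, ω)`), `∑_ω dn (A' ω) ≥ (s - η') card Ω`,
`∑_ω dn (D ω) ≥ θ card Ω`, so `∑_ω (dn (A' ω) - c (1 - dn (D ω))) ≥ (s - η' - c (1 - θ)) card Ω`, and some `ω` is as required.
`A' ω ∩ D ω = ∅`: otherwise `hasLine_of_word` for the word `Sum.elim (W v) ω'`... precisely: the line over `Option α` with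
`inl i ↦ none` if `W v i = none`, `some (W v i)` otherwise, and `inr j ↦ some (ω j)` lies in `A` (at the letter `none` it is
`Sum.elim (W v) ω`, at `some a` it is `Sum.elim (ups (getA a (W v))) ω`); it is proper by `h0`.
-/

set_option autoImplicit false

open Combinatorics

namespace Pool.Agent.H81.DH

/-- double counting: the sum of the densities of the sections in one direction -/
theorem inc_swap {X Y : Type} [Fintype X] [Fintype Y] [Nonempty X] [Nonempty Y] (P : X → Y → Prop) {t : ℝ}
    (h : ∀ x, t ≤ dn {y | P x y}) : t * Fintype.card Y ≤ ∑ y, dn {x | P x y} := by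
  have hX : (0 : ℝ) < Fintype.card X := by exact_mod_cast Fintype.card_pos
  have hY : (0 : ℝ) < Fintype.card Y := by exact_mod_cast Fintype.card_pos
  have h1 : (t * Fintype.card Y) * Fintype.card X ≤ ∑ x, ∑ y, ind {y | P x y} y := by
    calc (t * Fintype.card Y) * Fintype.card X = ∑ _x : X, (t * Fintype.card Y) := by
          simp [mul_comm]
      _ ≤ ∑ x, ∑ y, ind {y | P x y} y := by
          apply Finset.sum_le_sum
          intro x _
          rw [sum_ind]
          exact mul_le_mul_of_nonneg_right (h x) hY.le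
  have h2 : ∑ x, ∑ y, ind {y | P x y} y = ∑ y, ∑ x, ind {x | P x y} x := by
    rw [Finset.sum_comm]
    rfl
  have h3 : ∑ y, ∑ x, ind {x | P x y} x = (∑ y, dn {x | P x y}) * Fintype.card X := by
    rw [Finset.sum_mul]
    exact Finset.sum_congr rfl fun y _ => sum_ind _
  rw [h2, h3] at h1
  exact le_of_mul_le_mul_right h1 hX

theorem inc {α N κ M : Type} [Fintype α] [Fintype N] [DecidableEq N] [Fintype κ] [DecidableEq κ] [Fintype M]
    [DecidableEq M] {A : Set (N ⊕ κ → Option α)} (hA : ¬ HasLine A) (W : Subspace M (Option α) N)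
    (h0 : ∃ i, W.idxFun i = Sum.inl none) {s η' θ c : ℝ} (hc : 0 ≤ c)
    (hθ : ∀ v, θ ≤ dn {ω : κ → Option α | ∀ a, Sum.elim (ups (getA a (W v))) ω ∈ A})
    (hs : ∀ v, s - η' ≤ dn {ω : κ → Option α | Sum.elim (W v) ω ∈ A}) :
    ∃ ω : κ → Option α,
      (∀ v, ¬ (Sum.elim (W v) ω ∈ A ∧ ∀ a, Sum.elim (ups (getA a (W v))) ω ∈ A)) ∧
      s - η' - c * (1 - θ) ≤ dn {v | Sum.elim (W v) ω ∈ A} -
        c * (1 - dn {v | ∀ a, Sum.elim (ups (getA a (W v))) ω ∈ A}) := by
  have hne : ∀ (ω : κ → Option α) v,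
      ¬ (Sum.elim (W v) ω ∈ A ∧ ∀ a, Sum.elim (ups (getA a (W v))) ω ∈ A) := by
    rintro ω v ⟨h1, h2⟩
    apply hA
    refine ⟨⟨Sum.elim (fun i => (W v i).map some) (fun j => some (ω j)), ?_⟩, ?_⟩
    · obtain ⟨i, hi⟩ := h0
      refine ⟨Sum.inl i, ?_⟩
      simp [Subspace.apply_def, hi]
    · intro b
      cases b with
      | none =>
        convert h1 using 1
        funext i
        cases i with
        | inl i => cases h' : W v i <;> simp [h']
        | inr j => simp
      | some a =>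
        convert h2 a using 1
        funext i
        cases i with
        | inl i => cases h' : W v i <;> simp [h', ups, getA]
        | inr j => simp
  have h1 := inc_swap (fun (v : M → Option α) (ω : κ → Option α) => Sum.elim (W v) ω ∈ A) hs
  have h2 := inc_swap (fun (v : M → Option α) (ω : κ → Option α) =>
    ∀ a, Sum.elim (ups (getA a (W v))) ω ∈ A) hθ
  have h3 : ∑ _ω : κ → Option α, (s - η' - c * (1 - θ)) ≤
      ∑ ω : κ → Option α, (dn {v | Sum.elim (W v) ω ∈ A} -
        c * (1 - dn {v | ∀ a, Sum.elim (ups (getA a (W v))) ω ∈ A})) := by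
    have h4 := mul_le_mul_of_nonneg_left h2 hc
    have h5 : ∑ ω : κ → Option α, (dn {v | Sum.elim (W v) ω ∈ A} -
        c * (1 - dn {v | ∀ a, Sum.elim (ups (getA a (W v))) ω ∈ A})) =
        (∑ ω : κ → Option α, dn {v | Sum.elim (W v) ω ∈ A}) - c * (Fintype.card (κ → Option α) -
          ∑ ω : κ → Option α, dn {v | ∀ a, Sum.elim (ups (getA a (W v))) ω ∈ A}) := by
      rw [Finset.sum_sub_distrib, ← Finset.mul_sum, Finset.sum_sub_distrib]
      simp
    rw [h5, Finset.sum_const, Finset.card_univ, nsmul_eq_mul]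
    linarith
  obtain ⟨ω, _, hω⟩ := Finset.exists_le_of_sum_le Finset.univ_nonempty h3
  exact ⟨ω, hne ω, hω⟩

end Pool.Agent.H81.DH
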