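import Pool.Agent.H81.DH.Basic

/-!
JOB DH-LARGE. From one index type to all larger ones.

PROOF. `large`: let `f : ι₀ ↪ ι` (exists, `card ι₀ ≤ card ι`), `κ = {i // i ∉ Set.range f}`, `e : ι₀ ⊕ κ ≃ ι`. Pull `A` back to
`A' : Set (ι₀ ⊕ κ → α)` along the bijection `w ↦ w ∘ e.symm` (`dn_equiv`); averaging over `z : κ → α` (as `sum_dn`, with the
two parts exchanged) there is `z` with `ε ≤ dn {x | Sum.elim x z ∈ A'}`. The subspace `V` in this slice gives `fixR V z`, transported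
to `ι` along `e` (`idxFun i = (fixR V z).idxFun (e.symm i)`).
-/

set_option autoImplicit false

open Combinatorics

namespace Pool.Agent.H81.DH

theorem large {α ι₀ M : Type} [Fintype α] [Nonempty α] [Fintype ι₀] [DecidableEq ι₀] {ε : ℝ}
    (h : ∀ A : Set (ι₀ → α), ε ≤ dn A → ∃ V : Subspace M α ι₀, ∀ v, V v ∈ A)
    (ι : Type) [Fintype ι] [DecidableEq ι] (hι : Fintype.card ι₀ ≤ Fintype.card ι) (A : Set (ι → α))
    (hA : ε ≤ dn A) : ∃ V : Subspace M α ι, ∀ v, V v ∈ A := by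
  classical
  obtain ⟨f⟩ := Function.Embedding.nonempty_of_card_le hι
  let e : ↥(Set.range f)ᶜ ⊕ ι₀ ≃ ι :=
    (Equiv.sumComm _ _).trans ((Equiv.sumCongr (Equiv.ofInjective f f.injective)
      (Equiv.refl ↥(Set.range f)ᶜ)).trans (Equiv.Set.sumCompl (Set.range f)))
  let A' : Set (↥(Set.range f)ᶜ ⊕ ι₀ → α) := {w | w ∘ e.symm ∈ A}
  have hA' : dn A' = dn A := dn_equiv (Equiv.arrowCongr e (Equiv.refl α)) A
  have hsum := sum_dn A'
  obtain ⟨z, hz⟩ : ∃ z : ↥(Set.range f)ᶜ → α, ε ≤ dn {x : ι₀ → α | Sum.elim z x ∈ A'} := by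
    by_contra hne
    push Not at hne
    have h1 : ∑ z : ↥(Set.range f)ᶜ → α, dn {x : ι₀ → α | Sum.elim z x ∈ A'} <
        ∑ _z : ↥(Set.range f)ᶜ → α, ε :=
      Finset.sum_lt_sum_of_nonempty Finset.univ_nonempty fun z _ => hne z
    rw [hsum, hA', Finset.sum_const, Finset.card_univ, nsmul_eq_mul, mul_comm] at h1
    have h2 : (0 : ℝ) < Fintype.card (↥(Set.range f)ᶜ → α) := by exact_mod_cast Fintype.card_pos
    exact absurd (lt_of_mul_lt_mul_left h1 h2.le) (not_lt.2 hA)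
  obtain ⟨V, hV⟩ := h _ hz
  refine ⟨⟨fun i => (fixL z V).idxFun (e.symm i), fun m => ?_⟩, fun v => ?_⟩
  · obtain ⟨j, hj⟩ := (fixL z V).proper m
    exact ⟨e j, by rw [Equiv.symm_apply_apply]; exact hj⟩
  · have h3 : Sum.elim z (V v) ∘ e.symm ∈ A := hV v
    rw [← fixL_apply] at h3
    exact h3

end Pool.Agent.H81.DH
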