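import Pool.Agent.H81.DH.Large

/-!
JOB DH-MULTI. The multidimensional density theorem from the one-dimensional one.

PROOF. `mdhj_type` (for some index type): induction on `M` with `Finite.induction_empty_option` (or on `card M`). `M` empty: `A` is
nonempty (`exists_mem_of_dn_pos`), the subspace of dimension `0` is a point of `A`. From `M` to `Option M`: let `ι₂` be the type for
`M` and `ε/2`, `L` the number of elements of `Subspace M α ι₂` (a finite type: `idxFun` is injective), `ι₁` the type of `DHJ α` for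
`ε/(2L)` (`L ≥ 1`), and `ι = ι₁ ⊕ ι₂`. For `A` with `ε ≤ dn A` let `B` be the set of `x : ι₁ → α` whose slice `{z | Sum.elim x z ∈ A}` has
density `≥ ε/2`; `dn B ≥ ε/2` (by `sum_dn`). For `x ∈ B` choose `V_x : Subspace M α ι₂` in the slice; by pigeonhole a set `B' ⊆ B`
with `dn B' ≥ ε/(2L)` has the same `V_x = V`. A line `l` in `B'` and `V` give the subspace with
`idxFun (inl i) = (l.idxFun i).elim (inr none) inl`, `idxFun (inr j) = (V.idxFun j).map id some`, contained in `A`.
-/

set_option autoImplicit false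

open Combinatorics

namespace Pool.Agent.H81.DH

namespace Mul

/-- the classes of a colouring of `B` share its density -/
theorem pigeon {X C : Type} [Fintype X] [Fintype C] (B : Set X) (c : X → C) :
    ∑ v, dn {x | x ∈ B ∧ c x = v} = dn B := by
  classical
  unfold dn
  rw [← Finset.sum_div, Finset.sum_comm]
  congr 1
  refine Finset.sum_congr rfl fun x _ => ?_
  rw [Finset.sum_eq_single (c x)]
  · by_cases h : x ∈ B
    · rw [ind_of_mem h, ind_of_mem (A := {y | y ∈ B ∧ c y = c x}) ⟨h, rfl⟩]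
    · rw [ind_of_notMem h, ind_of_notMem (A := {y | y ∈ B ∧ c y = c x}) (fun hh => h hh.1)]
  · intro v _ hv
    exact ind_of_notMem fun h => hv h.2.symm
  · intro h
    exact absurd (Finset.mem_univ _) h

theorem exists_class {X C : Type} [Fintype X] [Fintype C] (B : Set X) (c : X → C) {ε : ℝ}
    (hC : 0 < Fintype.card C) (hB : ε ≤ dn B) :
    ∃ v, ε / Fintype.card C ≤ dn {x | x ∈ B ∧ c x = v} := by
  by_contra hne
  push Not at hne
  have : Nonempty C := Fintype.card_pos_iff.mp hC
  have h1 : ∑ v, dn {x | x ∈ B ∧ c x = v} < ∑ _v : C, ε / Fintype.card C :=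
    Finset.sum_lt_sum_of_nonempty Finset.univ_nonempty fun v _ => hne v
  rw [pigeon, Finset.sum_const, Finset.card_univ, nsmul_eq_mul, mul_div_cancel₀] at h1
  · linarith
  · exact_mod_cast hC.ne'

theorem slices {α ι κ : Type} [Fintype α] [Nonempty α] [Fintype ι] [DecidableEq ι] [Fintype κ]
    [DecidableEq κ] {ε : ℝ} (hε : 0 < ε) (A : Set (ι ⊕ κ → α)) (hA : ε ≤ dn A) :
    ε / 2 ≤ dn {x : ι → α | ε / 2 ≤ dn {z : κ → α | Sum.elim x z ∈ A}} := by
  set B : Set (ι → α) := {x : ι → α | ε / 2 ≤ dn {z : κ → α | Sum.elim x z ∈ A}} with hB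
  have h0 := sum_dn A
  have hN : (0 : ℝ) < Fintype.card (ι → α) := by exact_mod_cast Fintype.card_pos
  have h1 : ∑ x : ι → α, dn {z : κ → α | Sum.elim x z ∈ A} ≤ ∑ x : ι → α, (ind B x + ε / 2) := by
    refine Finset.sum_le_sum fun x _ => ?_
    by_cases hx : x ∈ B
    · rw [ind_of_mem hx]
      have := dn_le_one {z : κ → α | Sum.elim x z ∈ A}
      linarith
    · rw [ind_of_notMem hx]
      have : dn {z : κ → α | Sum.elim x z ∈ A} < ε / 2 := by
        by_contra hh
        exact hx (not_lt.mp hh)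
      linarith
  rw [h0, Finset.sum_add_distrib, sum_ind, Finset.sum_const, Finset.card_univ, nsmul_eq_mul] at h1
  have h2 : dn A * Fintype.card (ι → α) ≤ (dn B + ε / 2) * Fintype.card (ι → α) := by linarith
  have h3 := le_of_mul_le_mul_right h2 hN
  linarith

/-- a line and a subspace give a subspace of one dimension more -/
def addLine {α ι κ M : Type} (l : Line α ι) (V : Subspace M α κ) : Subspace (Option M) α (ι ⊕ κ) where
  idxFun := Sum.elim (fun i => (l.idxFun i).elim (Sum.inr none) Sum.inl)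
    (fun j => (V.idxFun j).map id some)
  proper e := by
    cases e with
    | none =>
      obtain ⟨i, hi⟩ := l.proper
      exact ⟨Sum.inl i, by simp [hi]⟩
    | some e =>
      obtain ⟨i, hi⟩ := V.proper e
      exact ⟨Sum.inr i, by simp [hi]⟩

theorem addLine_apply {α ι κ M : Type} (l : Line α ι) (V : Subspace M α κ) (v : Option M → α) :
    addLine l V v = Sum.elim (l (v none)) (V fun m => v (some m)) := by
  funext i
  cases i with
  | inl i =>
    simp only [Subspace.apply_def, addLine, Sum.elim_inl, Line.coe_apply]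
    cases l.idxFun i <;> simp
  | inr j =>
    simp only [Subspace.apply_def, addLine, Sum.elim_inr]
    cases V.idxFun j <;> simp

theorem finite_sub {α κ M : Type} [Finite α] [Finite κ] [Finite M] : Finite (Subspace M α κ) :=
  Finite.of_injective (fun V : Subspace M α κ => V.idxFun) fun V W h => by
    ext1
    exact h

theorem option {α : Type} [Fintype α] [Nonempty α] (hα : DHJ α) (M : Type) [Finite M]
    (ih : ∀ ε : ℝ, 0 < ε → ∃ (ι : Type) (_ : Fintype ι) (_ : DecidableEq ι), ∀ A : Set (ι → α), ε ≤ dn A →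
      ∃ V : Subspace M α ι, ∀ v, V v ∈ A) :
    ∀ ε : ℝ, 0 < ε → ∃ (ι : Type) (_ : Fintype ι) (_ : DecidableEq ι), ∀ A : Set (ι → α), ε ≤ dn A →
      ∃ V : Subspace (Option M) α ι, ∀ v, V v ∈ A := by
  classical
  intro ε hε
  obtain ⟨κ, _, _, hκ⟩ := ih (ε / 2) (half_pos hε)
  have hfin : Finite (Subspace M α κ) := finite_sub
  have hft : Fintype (Subspace M α κ) := Fintype.ofFinite _
  rcases isEmpty_or_nonempty (Subspace M α κ) with he | hne
  · refine ⟨Unit ⊕ κ, inferInstance, inferInstance, fun A hA => ?_⟩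
    have h1 := slices hε A hA
    obtain ⟨x, hx⟩ := exists_mem_of_dn_pos (lt_of_lt_of_le (half_pos hε) h1)
    obtain ⟨V, -⟩ := hκ _ hx
    exact he.elim V
  · have hL : 0 < Fintype.card (Subspace M α κ) := Fintype.card_pos
    have hLr : (0 : ℝ) < Fintype.card (Subspace M α κ) := by exact_mod_cast hL
    obtain ⟨ι, _, _, hι⟩ := hα (ε / 2 / Fintype.card (Subspace M α κ)) (div_pos (half_pos hε) hLr)
    refine ⟨ι ⊕ κ, inferInstance, inferInstance, fun A hA => ?_⟩
    have h1 := slices hε A hA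
    set B : Set (ι → α) := {x : ι → α | ε / 2 ≤ dn {z : κ → α | Sum.elim x z ∈ A}} with hB
    have hc : ∀ x : ι → α, ∃ V : Subspace M α κ, x ∈ B → ∀ v, Sum.elim x (V v) ∈ A := by
      intro x
      by_cases hx : x ∈ B
      · obtain ⟨V, hV⟩ := hκ _ hx
        exact ⟨V, fun _ v => hV v⟩
      · exact ⟨hne.some, fun h => absurd h hx⟩
    choose c hc using hc
    obtain ⟨V, hV⟩ := exists_class B c hL h1
    obtain ⟨l, hl⟩ := hι _ hV
    refine ⟨addLine l V, fun v => ?_⟩
    rw [addLine_apply]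
    obtain ⟨h2, h3⟩ := hl (v none)
    have h4 := hc _ h2 (fun m => v (some m))
    rw [h3] at h4
    exact h4

end Mul

theorem mdhj_type {α : Type} [Fintype α] [Nonempty α] (hα : DHJ α) (M : Type) [Finite M] :
    ∀ ε : ℝ, 0 < ε → ∃ (ι : Type) (_ : Fintype ι) (_ : DecidableEq ι), ∀ A : Set (ι → α), ε ≤ dn A →
      ∃ V : Subspace M α ι, ∀ v, V v ∈ A := by
  refine Finite.induction_empty_option (P := fun M => ∀ ε : ℝ, 0 < ε →
    ∃ (ι : Type) (_ : Fintype ι) (_ : DecidableEq ι), ∀ A : Set (ι → α), ε ≤ dn A →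
      ∃ V : Subspace M α ι, ∀ v, V v ∈ A) ?_ ?_ ?_ M
  · intro M M' e h ε hε
    obtain ⟨ι, _, _, hι⟩ := h ε hε
    refine ⟨ι, inferInstance, inferInstance, fun A hA => ?_⟩
    obtain ⟨V, hV⟩ := hι A hA
    refine ⟨V.reindex e (Equiv.refl α) (Equiv.refl ι), fun v => ?_⟩
    have h1 : V.reindex e (Equiv.refl α) (Equiv.refl ι) v = V (v ∘ e) := by
      funext i
      rw [Subspace.reindex_apply]
      rfl
    rw [h1]
    exact hV _
  · intro ε hε
    refine ⟨Unit, inferInstance, inferInstance, fun A hA => ?_⟩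
    obtain ⟨x, hx⟩ := exists_mem_of_dn_pos (lt_of_lt_of_le hε hA)
    refine ⟨⟨fun i => Sum.inl (x i), fun e => e.elim⟩, fun v => ?_⟩
    exact hx
  · intro M _ ih
    exact Mul.option hα M ih

theorem mdhj {α : Type} [Fintype α] [Nonempty α] (hα : DHJ α) (M : Type) [Finite M] {ε : ℝ} (hε : 0 < ε) :
    ∃ n : ℕ, ∀ (ι : Type) [Fintype ι] [DecidableEq ι], n ≤ Fintype.card ι → ∀ A : Set (ι → α), ε ≤ dn A →
      ∃ V : Subspace M α ι, ∀ v, V v ∈ A := by
  obtain ⟨ι₀, _, _, h⟩ := mdhj_type hα M ε hε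
  exact ⟨Fintype.card ι₀, fun ι _ _ hι A hA => large h ι hι A hA⟩

end Pool.Agent.H81.DH
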