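import Pool.Agent.H81.DH.Basic

/-!
JOB DH-PIECE. The tiling property gives an upper bound outside the intersection of the `D a`.

PROOF of `piece`. For `τ : Finset α` (or `Set α`) let `E_τ = {x | ∀ a, (x ∈ D a ↔ a ∈ τ)}`, an intersection of insensitive
sets (`Ins.compl`). These sets partition all words, and `{x | ∀ a, x ∈ D a} = E_univ`. For `τ ≠ univ` apply `hT` to
`g x = ind A x - c` (`≤ 1`; for a subspace `V`: `∑_v g (V v) = (dn {v | V v ∈ A} - c) card ≤ 0`):
`∑ ind E_τ (ind A - c) ≤ ε card`. Sum over the `τ ≠ univ` (at most `2^card α`): `A` is disjoint from `E_univ`, so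
`∑ ind A - c (card - ∑ ind E_univ) ≤ 2^{card α} ε card`.
-/

set_option autoImplicit false

open Combinatorics

namespace Pool.Agent.H81.DH

theorem piece {α M₂ M₃ : Type} [Fintype α] [Nonempty α] [Fintype M₂] [DecidableEq M₂] [Fintype M₃]
    [DecidableEq M₃] {ε c : ℝ} (hc : 0 ≤ c)
    (hT : ∀ E : α → Set (M₂ → Option α), (∀ a, Ins a (E a)) → Til M₃ ε {x | ∀ a, x ∈ E a})
    (A : Set (M₂ → Option α)) (D : α → Set (M₂ → Option α)) (hD : ∀ a, Ins a (D a))
    (hAD : ∀ v, ¬ (v ∈ A ∧ ∀ a, v ∈ D a))
    (hup : ∀ V : Subspace M₃ (Option α) M₂, dn {v | V v ∈ A} ≤ c) :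
    dn A - c * (1 - dn {v | ∀ a, v ∈ D a}) ≤ 2 ^ Fintype.card α * ε := by
  classical
  have hN : (0 : ℝ) < Fintype.card (M₂ → Option α) := by exact_mod_cast Fintype.card_pos
  have hε : 0 ≤ ε := by
    have h := hT (fun _ => Set.univ) (fun a => Ins.univ a) (fun _ => 0) (fun _ => zero_le_one)
      (fun V _ => by simp)
    simp only [mul_zero, Finset.sum_const_zero] at h
    exact nonneg_of_mul_nonneg_left h hN
  obtain ⟨E, hE⟩ : ∃ E : Finset α → Set (M₂ → Option α),
      E = fun τ => {x | ∀ a, x ∈ D a ↔ a ∈ τ} := ⟨_, rfl⟩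
  have hmE : ∀ τ x, x ∈ E τ ↔ ∀ a, x ∈ D a ↔ a ∈ τ := by
    intro τ x
    rw [hE]
    exact Iff.rfl
  have hEU : E Finset.univ = {v | ∀ a, v ∈ D a} := by
    ext x
    rw [hmE, Set.mem_ofPred_eq]
    simp
  have hg1 : ∀ x, ind A x - c ≤ 1 := fun x => by
    have := ind_le_one A x
    linarith
  have hg2 : ∀ V : Subspace M₃ (Option α) M₂, ∑ v, (ind A (V v) - c) ≤ 0 := by
    intro V
    have h1 : ∑ v, ind A (V v) = dn {v | V v ∈ A} * Fintype.card (M₃ → Option α) := by
      rw [← sum_ind]
      rfl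
    rw [Finset.sum_sub_distrib, h1, Finset.sum_const, Finset.card_univ, nsmul_eq_mul, mul_comm _ c,
      ← sub_mul]
    exact mul_nonpos_of_nonpos_of_nonneg (by have := hup V; linarith) (Nat.cast_nonneg _)
  have hτ : ∀ τ, ∑ x, ind (E τ) x * (ind A x - c) ≤ ε * Fintype.card (M₂ → Option α) := by
    intro τ
    have hF : ∀ a, Ins a (if a ∈ τ then D a else (D a)ᶜ) := by
      intro a
      by_cases h : a ∈ τ
      · rw [if_pos h]; exact hD a
      · rw [if_neg h]; exact (hD a).compl
    have h := hT (fun a => if a ∈ τ then D a else (D a)ᶜ) hF (fun x => ind A x - c) hg1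
      (fun V _ => hg2 V)
    have hEτ : {x | ∀ a, x ∈ (if a ∈ τ then D a else (D a)ᶜ)} = E τ := by
      ext x
      rw [hmE, Set.mem_ofPred_eq]
      refine forall_congr' fun a => ?_
      by_cases h : a ∈ τ <;> simp [h]
    rwa [hEτ] at h
  -- the sets `E τ` partition all words
  have hpart : ∀ x, ∑ τ, ind (E τ) x = 1 := by
    intro x
    rw [Finset.sum_eq_single (Finset.univ.filter fun a => x ∈ D a)]
    · apply ind_of_mem
      rw [hmE]
      intro a
      simp
    · intro τ _ hτ
      apply ind_of_notMem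
      rw [hmE]
      intro h
      apply hτ
      ext a
      rw [← h a]
      simp
    · intro h
      exact absurd (Finset.mem_univ _) h
  have hpart' : ∀ x, ∑ τ ∈ (Finset.univ : Finset (Finset α)).erase Finset.univ, ind (E τ) x =
      1 - ind (E Finset.univ) x := by
    intro x
    rw [← hpart x, ← Finset.add_sum_erase _ _ (Finset.mem_univ (Finset.univ : Finset α))]
    ring
  have hA0 : ∀ x, ind (E Finset.univ) x * ind A x = 0 := by
    intro x
    by_cases h : x ∈ A
    · rw [ind_of_notMem, zero_mul]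
      rw [hEU]
      exact fun h' => hAD x ⟨h, h'⟩
    · rw [ind_of_notMem h, mul_zero]
  have hsum : ∑ τ ∈ (Finset.univ : Finset (Finset α)).erase Finset.univ,
      ∑ x, ind (E τ) x * (ind A x - c) =
      ∑ x, ind A x - c * (Fintype.card (M₂ → Option α) - ∑ x, ind (E Finset.univ) x) := by
    rw [Finset.sum_comm]
    have h1 : ∀ x, ∑ τ ∈ (Finset.univ : Finset (Finset α)).erase Finset.univ,
        ind (E τ) x * (ind A x - c) = ind A x - (c - c * ind (E Finset.univ) x) := by
      intro x
      rw [← Finset.sum_mul, hpart']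
      have := hA0 x
      linear_combination (-1) * this
    rw [Finset.sum_congr rfl fun x _ => h1 x, Finset.sum_sub_distrib, Finset.sum_sub_distrib,
      Finset.sum_const, Finset.card_univ, nsmul_eq_mul, ← Finset.mul_sum]
    ring
  have hle : ∑ τ ∈ (Finset.univ : Finset (Finset α)).erase Finset.univ,
      ∑ x, ind (E τ) x * (ind A x - c) ≤
      2 ^ Fintype.card α * ε * Fintype.card (M₂ → Option α) := by
    calc ∑ τ ∈ (Finset.univ : Finset (Finset α)).erase Finset.univ,
          ∑ x, ind (E τ) x * (ind A x - c)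
        ≤ ∑ τ ∈ (Finset.univ : Finset (Finset α)).erase Finset.univ,
          ε * Fintype.card (M₂ → Option α) := Finset.sum_le_sum fun τ _ => hτ τ
      _ ≤ ∑ τ : Finset α, ε * Fintype.card (M₂ → Option α) :=
          Finset.sum_le_sum_of_subset_of_nonneg (Finset.erase_subset _ _)
            fun _ _ _ => mul_nonneg hε hN.le
      _ = 2 ^ Fintype.card α * ε * Fintype.card (M₂ → Option α) := by
          rw [Finset.sum_const, Finset.card_univ, Fintype.card_finset, nsmul_eq_mul]
          push_cast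
          ring
  rw [hsum, sum_ind, sum_ind, hEU] at hle
  have hfin : (dn A - c * (1 - dn {v | ∀ a, v ∈ D a})) * Fintype.card (M₂ → Option α) ≤
      (2 ^ Fintype.card α * ε) * Fintype.card (M₂ → Option α) := by
    linarith
  exact le_of_mul_le_mul_right hfin hN

end Pool.Agent.H81.DH
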