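import Pool.Agent.H81.DH.Basic

/-!
JOB DH-PROB. The probabilistic form of the density theorem, and an averaging lemma.

PROOF of `prob_line`. For `ω` let `A_ω = {x | ω ∈ Ev x}`. `∑_ω dn A_ω ≥ δ card Ω` (exchange the sums). Since
`dn A_ω ≤ [δ/2 ≤ dn A_ω] + δ/2`, the set `G` of `ω` with `δ/2 ≤ dn A_ω` has `#G ≥ (δ/2) card Ω`. For `ω ∈ G`, `hR` and
`hasLine_iff` give `y` with a letter `none` and `getA a y ∈ A_ω` for all `a`. Pigeonhole over `y : R → Option α`.

PROOF of `slice_ge`. By `sum_dn`, `∑_x dn (slice x) = dn A * N ≥ (s - η) N`, `N = card (ι → β)`; the other `N - 1` slices are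
`≤ s + η`, so `dn (slice x₀) ≥ (s-η) N - (N-1)(s+η) = s - (2N-1) η ≥ s - 2 N η`.
-/

set_option autoImplicit false

open Combinatorics

namespace Pool.Agent.H81.DH

theorem prob_line {α R Ω : Type} [Fintype α] [Nonempty α] [Fintype R] [DecidableEq R] [Fintype Ω] [Nonempty Ω]
    {δ : ℝ} (hδ : 0 < δ) (hR : ∀ A : Set (R → α), δ / 2 ≤ dn A → HasLine A) (Ev : (R → α) → Set Ω)
    (hEv : ∀ x, δ ≤ dn (Ev x)) :
    ∃ y : R → Option α, (∃ i, y i = none) ∧
      δ / 2 / Fintype.card (R → Option α) ≤ dn {ω | ∀ a, ω ∈ Ev (getA a y)} := by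
  classical
  set F : Finset (R → Option α) := Finset.univ.filter (fun y => ∃ i, y i = none) with hF
  set L : (R → Option α) → Set Ω := fun y => {ω | ∀ a, ω ∈ Ev (getA a y)} with hL
  have hN : (0 : ℝ) < Fintype.card (R → α) := by exact_mod_cast Fintype.card_pos
  have hΩ : (0 : ℝ) < Fintype.card Ω := by exact_mod_cast Fintype.card_pos
  have hY : (0 : ℝ) < Fintype.card (R → Option α) := by exact_mod_cast Fintype.card_pos
  -- exchange the sums
  have h1 : δ * Fintype.card Ω ≤ ∑ ω : Ω, dn {x : R → α | ω ∈ Ev x} := by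
    have h2 : ∑ ω : Ω, dn {x : R → α | ω ∈ Ev x} =
        (∑ x : R → α, ∑ ω : Ω, ind (Ev x) ω) / Fintype.card (R → α) := by
      unfold dn
      rw [← Finset.sum_div, Finset.sum_comm]
      rfl
    rw [h2, le_div_iff₀ hN]
    calc δ * Fintype.card Ω * Fintype.card (R → α)
        = ∑ _x : R → α, δ * Fintype.card Ω := by
          rw [Finset.sum_const, Finset.card_univ, nsmul_eq_mul]; ring
      _ ≤ ∑ x : R → α, ∑ ω : Ω, ind (Ev x) ω := by
          refine Finset.sum_le_sum fun x _ => ?_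
          rw [sum_ind]
          exact mul_le_mul_of_nonneg_right (hEv x) hΩ.le
  -- pointwise bound
  have h3 : ∀ ω : Ω, dn {x : R → α | ω ∈ Ev x} ≤ δ / 2 + ∑ y ∈ F, ind (L y) ω := by
    intro ω
    have h0 : 0 ≤ ∑ y ∈ F, ind (L y) ω := Finset.sum_nonneg fun y _ => ind_nonneg _ _
    by_cases h : δ / 2 ≤ dn {x : R → α | ω ∈ Ev x}
    · obtain ⟨y, hy, hya⟩ := hasLine_iff.mp (hR _ h)
      have hyF : y ∈ F := by rw [hF, Finset.mem_filter]; exact ⟨Finset.mem_univ _, hy⟩
      have h4 : ind (L y) ω = 1 := ind_of_mem (fun a => hya a)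
      have h5 : ind (L y) ω ≤ ∑ y ∈ F, ind (L y) ω :=
        Finset.single_le_sum (f := fun y => ind (L y) ω) (fun y _ => ind_nonneg _ _) hyF
      have h6 := dn_le_one {x : R → α | ω ∈ Ev x}
      linarith
    · push Not at h
      linarith
  have h4 : δ / 2 ≤ ∑ y ∈ F, dn (L y) := by
    have h5 : ∑ ω : Ω, dn {x : R → α | ω ∈ Ev x} ≤
        δ / 2 * Fintype.card Ω + (∑ y ∈ F, dn (L y)) * Fintype.card Ω := by
      calc ∑ ω : Ω, dn {x : R → α | ω ∈ Ev x}
          ≤ ∑ ω : Ω, (δ / 2 + ∑ y ∈ F, ind (L y) ω) := Finset.sum_le_sum fun ω _ => h3 ω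
        _ = δ / 2 * Fintype.card Ω + ∑ y ∈ F, ∑ ω : Ω, ind (L y) ω := by
          rw [Finset.sum_add_distrib, Finset.sum_const, Finset.card_univ, nsmul_eq_mul,
            Finset.sum_comm]
          ring
        _ = δ / 2 * Fintype.card Ω + (∑ y ∈ F, dn (L y)) * Fintype.card Ω := by
          rw [Finset.sum_mul]
          congr 1
          exact Finset.sum_congr rfl fun y _ => sum_ind _
    have h6 : δ * Fintype.card Ω ≤ (δ / 2 + ∑ y ∈ F, dn (L y)) * Fintype.card Ω := by
      rw [add_mul]; exact h1.trans h5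
    have h7 := le_of_mul_le_mul_right h6 hΩ
    linarith
  have hne : F.Nonempty := by
    by_contra hemp
    rw [Finset.not_nonempty_iff_eq_empty] at hemp
    rw [hemp, Finset.sum_empty] at h4
    linarith
  have h5 : ∑ _y ∈ F, δ / 2 / Fintype.card (R → Option α) ≤ ∑ y ∈ F, dn (L y) := by
    refine le_trans ?_ h4
    rw [Finset.sum_const, nsmul_eq_mul]
    have h6 : (F.card : ℝ) ≤ Fintype.card (R → Option α) := by
      exact_mod_cast Finset.card_le_univ F
    rw [mul_div_assoc', div_le_iff₀ hY, mul_comm]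
    exact mul_le_mul_of_nonneg_left h6 (by positivity)
  obtain ⟨y, hy, hyd⟩ := Finset.exists_le_of_sum_le hne h5
  exact ⟨y, (Finset.mem_filter.mp hy).2, hyd⟩

theorem slice_ge {β ι κ : Type} [Fintype β] [Nonempty β] [Fintype ι] [DecidableEq ι] [Fintype κ] [DecidableEq κ]
    {A : Set (ι ⊕ κ → β)} {s η : ℝ} (hη : 0 ≤ η) (hA : s - η ≤ dn A)
    (hup : ∀ x : ι → β, dn {z : κ → β | Sum.elim x z ∈ A} ≤ s + η) (x : ι → β) :
    s - 2 * Fintype.card (ι → β) * η ≤ dn {z : κ → β | Sum.elim x z ∈ A} := by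
  classical
  have hN : (0 : ℝ) < Fintype.card (ι → β) := by exact_mod_cast Fintype.card_pos
  have h1 := sum_dn A
  rw [← Finset.add_sum_erase _ _ (Finset.mem_univ x)] at h1
  have h2 : ∑ x' ∈ (Finset.univ : Finset (ι → β)).erase x, dn {z : κ → β | Sum.elim x' z ∈ A} ≤
      (Fintype.card (ι → β) - 1) * (s + η) := by
    calc ∑ x' ∈ (Finset.univ : Finset (ι → β)).erase x, dn {z : κ → β | Sum.elim x' z ∈ A}
        ≤ ∑ _x' ∈ (Finset.univ : Finset (ι → β)).erase x, (s + η) :=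
          Finset.sum_le_sum fun x' _ => hup x'
      _ = (Fintype.card (ι → β) - 1) * (s + η) := by
          rw [Finset.sum_const, nsmul_eq_mul, Finset.card_erase_of_mem (Finset.mem_univ x),
            Finset.card_univ, Nat.cast_sub (Fintype.card_pos), Nat.cast_one]
  have h3 : (s - η) * Fintype.card (ι → β) ≤ dn A * Fintype.card (ι → β) :=
    mul_le_mul_of_nonneg_right hA hN.le
  nlinarith

end Pool.Agent.H81.DH
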