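import Pool.Agent.H81.DH.Tile2
import Pool.Agent.H81.DH.GR
import Pool.Agent.H81.DH.Prob
import Pool.Agent.H81.DH.Inc
import Pool.Agent.H81.DH.Piece

/-!
JOB DH-STEP. The contradiction.

PROOF of `step`. `k = card α`. `R` from `hα (s/4)`; `θ = (s/2/2)/card (R → Option α)`, `γ = s θ/4` (`θ ≤ 1`), `M₃` from `hup γ`,
`ε = s θ/(4 · 2^k)`, `M₂` from `til_all hα M₃ ε`, `N` from `gr α R M₂`, `n = card (N → Option α)`, `η = s θ/(8 n)`, `κ` from `hup η`.
`A` from `hlow η (N ⊕ κ)`. All slices `{z | Sum.elim x z ∈ A}` are line free (`HasLine.of_sliceR`), so their densities are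
`≤ s + η`, and `slice_ge` gives `≥ s - 2 n η = s - s θ/4 ≥ s/2`. `G = {y | θ ≤ dn {ω | ∀ a, Sum.elim (ups (getA a y)) ω ∈ A}}`
satisfies the hypothesis of `gr`: for `U` use `prob_line` (`δ = s/2`, `Ev x = {ω | Sum.elim (ups (U x)) ω ∈ A}`, `getA_lift`).
Get `W`; `inc` with `η' = s θ/4`, `c = s + γ` gives `ω`; the sets `A' = {v | Sum.elim (W v) ω ∈ A}`,
`D a = {v | Sum.elim (ups (getA a (W v))) ω ∈ A}` satisfy the hypotheses of `piece` with `c = s + γ`: `D a` is insensitive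
(`getA_sub`); for `V : Subspace M₃ _ M₂` the set `{v | V v ∈ A'}` is line free (a line in it gives one in `A'` and in `A`:
`HasLine.of_pull`, `HasLine.of_sliceL`), so its density is `≤ s + γ`. So
`s - sθ/4 - (s+γ)(1-θ) ≤ 2^k ε = sθ/4`, but the left side is `≥ sθ - γ - sθ/4 = sθ/2`, a contradiction.
-/

set_option autoImplicit false

open Combinatorics

namespace Pool.Agent.H81.DH

theorem step {α : Type} [Fintype α] [Nonempty α] (hα : DHJ α) {s : ℝ} (hs : 0 < s) (hs1 : s ≤ 1)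
    (hup : ∀ η : ℝ, 0 < η → ∃ (ι : Type) (_ : Fintype ι) (_ : DecidableEq ι), ∀ A : Set (ι → Option α),
      ¬ HasLine A → dn A ≤ s + η)
    (hlow : ∀ η : ℝ, 0 < η → ∀ (ι : Type) [Fintype ι] [DecidableEq ι], ∃ A : Set (ι → Option α),
      ¬ HasLine A ∧ s - η ≤ dn A) : False := by
  classical
  obtain ⟨R, hRf, hRd, hR⟩ := hα (s / 2 / 2) (by positivity)
  obtain ⟨θ, hθ⟩ : ∃ θ : ℝ, θ = s / 2 / 2 / (Fintype.card (R → Option α) : ℝ) := ⟨_, rfl⟩
  have hcR : (1 : ℝ) ≤ (Fintype.card (R → Option α) : ℝ) := by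
    exact_mod_cast Fintype.card_pos
  have hθ0 : 0 < θ := by rw [hθ]; positivity
  have hθ1 : θ ≤ 1 := by
    rw [hθ]
    apply (div_le_self (by positivity) hcR).trans
    linarith
  obtain ⟨γ, hγ⟩ : ∃ γ : ℝ, γ = s * θ / 4 := ⟨_, rfl⟩
  have hγ0 : 0 < γ := by rw [hγ]; positivity
  obtain ⟨M₃, hM3f, hM3d, hM₃⟩ := hup γ hγ0
  obtain ⟨ε, hε⟩ : ∃ ε : ℝ, ε = s * θ / (4 * 2 ^ Fintype.card α) := ⟨_, rfl⟩
  have hε0 : 0 < ε := by rw [hε]; positivity
  obtain ⟨M₂, hM2f, hM2d, hM₂⟩ := til_all hα M₃ hε0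
  obtain ⟨N, hNf, hNd, hN⟩ := gr α R M₂
  obtain ⟨n, hn⟩ : ∃ n : ℝ, n = (Fintype.card (N → Option α) : ℝ) := ⟨_, rfl⟩
  have hn1 : 1 ≤ n := by
    rw [hn]
    exact_mod_cast Fintype.card_pos
  have hn0 : 0 < n := by linarith
  obtain ⟨η, hη⟩ : ∃ η : ℝ, η = s * θ / (8 * n) := ⟨_, rfl⟩
  have hη0 : 0 < η := by rw [hη]; positivity
  have hnη : 2 * n * η = s * θ / 4 := by
    rw [hη]
    field_simp
    ring
  obtain ⟨κ, hκf, hκd, hκ⟩ := hup η hη0
  obtain ⟨A, hA, hAs⟩ := hlow η hη0 (N ⊕ κ)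
  have hslice : ∀ x : N → Option α, s - s * θ / 4 ≤ dn {z : κ → Option α | Sum.elim x z ∈ A} := by
    intro x
    have h := slice_ge hη0.le hAs
      (fun x => hκ _ (fun hl => hA (HasLine.of_sliceR x hl))) x
    rw [← hn, hnη] at h
    exact h
  obtain ⟨G, hG⟩ : ∃ G : Set (N → Option α), G = {y | θ ≤ dn {ω : κ → Option α |
    ∀ a, Sum.elim (ups (getA a y)) ω ∈ A}} := ⟨_, rfl⟩
  obtain ⟨W, hW0, hWG⟩ := hN G (by
    intro U
    obtain ⟨y, hy0, hy⟩ := prob_line (Ω := κ → Option α) (δ := s / 2) (by positivity) hR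
      (fun x => {ω : κ → Option α | Sum.elim (ups (U x)) ω ∈ A}) (by
        intro x
        have h := hslice (ups (U x))
        have h2 : s * θ ≤ s := mul_le_of_le_one_right hs.le hθ1
        linarith)
    refine ⟨y, hy0, ?_⟩
    rw [hG, Set.mem_setOf_eq]
    simp only [getA_lift]
    rw [hθ]
    exact hy)
  have hθW : ∀ v, θ ≤ dn {ω : κ → Option α | ∀ a, Sum.elim (ups (getA a (W v))) ω ∈ A} := by
    intro v
    have h := hWG v
    rw [hG] at h
    exact h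
  obtain ⟨ω, hω1, hω2⟩ := inc (c := s + γ) (s := s) (η' := s * θ / 4) (θ := θ) hA W hW0
    (by linarith) hθW (fun v => hslice (W v))
  have hp := piece (M₃ := M₃) (ε := ε) (c := s + γ) (by linarith) hM₂
    {v | Sum.elim (W v) ω ∈ A} (fun a => {v | Sum.elim (ups (getA a (W v))) ω ∈ A})
    (by
      intro a y
      simp only [Set.mem_setOf_eq]
      rw [getA_sub])
    (by
      intro v hv
      exact hω1 v hv)
    (by
      intro V
      apply hM₃
      intro hl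
      have h1 : HasLine {v | Sum.elim (W v) ω ∈ A} := HasLine.of_pull V hl
      have h2 : HasLine {x : N → Option α | Sum.elim x ω ∈ A} := HasLine.of_pull W h1
      exact hA (HasLine.of_sliceL ω h2))
  have h2k : (2 : ℝ) ^ Fintype.card α * ε = s * θ / 4 := by
    rw [hε]
    field_simp
  rw [h2k] at hp
  have hfin : s - s * θ / 4 - (s + γ) * (1 - θ) ≤ s * θ / 4 := hω2.trans hp
  have hsθ : 0 < s * θ := by positivity
  rw [hγ] at hfin
  nlinarith [mul_pos hsθ hθ0]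

end Pool.Agent.H81.DH
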