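import Pool.Agent.H81.DH.Cond

/-!
JOB DH-TFAM. One step of the tiling of insensitive sets (`til_family`; the rest of this text, used in Tile1.lean, gives
the context).

PROOF. Write `β = Option α`. Let `κ` be the type of `ins_sub` for `M`, `ε/2`, and `η = (ε/2)/card (κ → β)`.
Claim, by induction on `t : ℕ`: there is a finite type `ι` such that for every finite type `Y`, every
`E : Y → Set (ι → β)` with all `E y` insensitive (for `a`), `∑_y ∑_x ind (E y) x ≤ (t η + ε) card Y card (ι → β)`, and every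
`g : Y → (ι → β) → ℝ` with `g ≤ 1` and `∑_v g y (V v) ≤ 0` for all `y` and all `V : Subspace M β ι` with `V v ∈ E y` for all `v`:
`∑_y ∑_x ind (E y) x * g y x ≤ ε card Y card (ι → β)`. (`til_family`.)
`t = 0`: `ind * g ≤ ind`. Take any `ι`, e.g. `Empty`.
Step: the new type is `ι ⊕ κ`. If `∑ ind ≤ ε card ..`, trivial as before. Otherwise, for `y : Y`, `x : ι → β` let
`S y x = {z : κ → β | Sum.elim x z ∈ E y}` (insensitive for `a`); call `(y,x)` good if `ε/2 ≤ dn (S y x)`; at least
`(ε/2) card Y card (ι → β)` pairs are good, because the mean of `dn (S y x)` is `> ε` and `dn ≤ 1`. For an insensitive set `S` with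
`ε/2 ≤ dn S` fix a subspace `V_S : Subspace M β κ` in `S` (a function of the SET `S`). Let `Y' = (κ → β) × Y` and
`E' (z,y) = {x | Sum.elim x z ∈ E y ∧ ¬ (good (y,x) ∧ z ∈ range V_{S y x})}`. `E' (z,y)` is insensitive in `x`: if
`getA a x = getA a x'` then `S y x = S y x'` (`ins_iff`, `getA_elim`). The sum of `ind E'` is smaller than that of `ind E` by
the number of triples `(y,x,z)` with `(y,x)` good, `z ∈ range V_{S y x}`, which is at least the number of good pairs,
`≥ η card Y card (ι ⊕ κ → β)`. Hypothesis for `E'`, `g' (z,y) x = g y (Sum.elim x z)`: a subspace `V` of `ι → β` in `E' (z,y)` gives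
`fixR V z` in `E y`. So `∑ ind E' g' ≤ ε card ..`. The removed part: for each good `(y,x)`,
`∑_{z ∈ range V_{S y x}} g y (Sum.elim x z) = ∑_v g y (fixL x V_{S y x} v) ≤ 0` (`sub_injective`).
Finally `til_one`: `Y = Unit` and `t` with `t η + ε ≥ 1`.
-/

set_option autoImplicit false

open Combinatorics

namespace Pool.Agent.H81.DH

theorem tfam_sum_range {A B : Type} [Fintype A] [Fintype B] (f : A → B) (hf : Function.Injective f)
    (F : B → ℝ) : ∑ z, ind (Set.range f) z * F z = ∑ v, F (f v) := by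
  classical
  calc ∑ z, ind (Set.range f) z * F z
      = ∑ z ∈ Finset.univ.map ⟨f, hf⟩, ind (Set.range f) z * F z := by
        symm
        refine Finset.sum_subset (Finset.subset_univ _) fun z _ hz => ?_
        rw [ind_of_notMem, zero_mul]
        rintro ⟨v, rfl⟩
        exact hz (Finset.mem_map.2 ⟨v, Finset.mem_univ _, rfl⟩)
    _ = ∑ v, ind (Set.range f) (f v) * F (f v) := Finset.sum_map _ _ _
    _ = ∑ v, F (f v) := Finset.sum_congr rfl fun v _ => by
        rw [ind_of_mem (A := Set.range f) ⟨v, rfl⟩, one_mul]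

/-- the chosen part of an insensitive set -/
theorem tfam_part {α : Type} [Fintype α] {κ M : Type} [Fintype κ] [DecidableEq κ] [Fintype M]
    [DecidableEq M] {ε : ℝ} (hε : 0 < ε) (a : α)
    (hκ : ∀ B : Set (κ → Option α), Ins a B → ε / 2 ≤ dn B → ∃ V : Subspace M (Option α) κ, ∀ v, V v ∈ B) :
    ∃ R : Set (κ → Option α) → Set (κ → Option α), (∀ B, Ins a B → R B ⊆ B) ∧
      (∀ B, Ins a B → ∀ F : (κ → Option α) → ℝ,
        (∀ V : Subspace M (Option α) κ, (∀ v, V v ∈ B) → ∑ v, F (V v) ≤ 0) →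
          ∑ z, ind (R B) z * F z ≤ 0) ∧
      (∀ B, Ins a B → dn B ≤ ε / 2 + ∑ z, ind (R B) z) := by
  have hex : ∀ B : Set (κ → Option α), ∃ RB : Set (κ → Option α), (Ins a B → RB ⊆ B) ∧
      (Ins a B → ∀ F : (κ → Option α) → ℝ,
        (∀ V : Subspace M (Option α) κ, (∀ v, V v ∈ B) → ∑ v, F (V v) ≤ 0) →
          ∑ z, ind RB z * F z ≤ 0) ∧
      (Ins a B → dn B ≤ ε / 2 + ∑ z, ind RB z) := by
    intro B
    by_cases h : Ins a B ∧ ε / 2 ≤ dn B
    · obtain ⟨V, hV⟩ := hκ B h.1 h.2
      refine ⟨Set.range (fun v => V v), fun _ => ?_, fun _ F hF => ?_, fun _ => ?_⟩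
      · rintro z ⟨v, rfl⟩
        exact hV v
      · rw [tfam_sum_range (fun v => V v) (sub_injective V) F]
        exact hF V hV
      · have h1 : (1 : ℝ) ≤ ∑ z, ind (Set.range (fun v => V v)) z := by
          have h2 := Finset.single_le_sum (f := fun z => ind (Set.range (fun v => V v)) z)
            (fun z _ => ind_nonneg _ z) (Finset.mem_univ (V (fun _ => none)))
          have h3 : ind (Set.range (fun v => V v)) (V (fun _ => none)) = 1 :=
            ind_of_mem ⟨fun _ => none, rfl⟩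
          rw [h3] at h2
          exact h2
        have h4 := dn_le_one B
        linarith
    · refine ⟨∅, fun _ => Set.empty_subset _, fun _ F _ => ?_, fun hI => ?_⟩
      · rw [Finset.sum_eq_zero fun z _ => by rw [ind_of_notMem (Set.notMem_empty z), zero_mul]]
      · have h1 : ¬ ε / 2 ≤ dn B := fun h2 => h ⟨hI, h2⟩
        rw [Finset.sum_eq_zero fun z _ => ind_of_notMem (Set.notMem_empty z)]
        linarith [not_le.1 h1]
  choose R h1 h2 h3 using hex
  exact ⟨R, h1, h2, h3⟩

theorem tfam_comm {A B Y : Type} [Fintype A] [Fintype B] [Fintype Y] (f : Y → A → B → ℝ) :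
    ∑ p : B × Y, ∑ x, f p.2 x p.1 = ∑ y, ∑ x, ∑ z, f y x z := by
  rw [Fintype.sum_prod_type, Finset.sum_comm]
  refine Finset.sum_congr rfl fun y _ => ?_
  rw [Finset.sum_comm]

theorem til_family {α : Type} [Fintype α] [Nonempty α] {κ M : Type} [Fintype κ] [DecidableEq κ] [Fintype M]
    [DecidableEq M] {ε : ℝ} (hε : 0 < ε) (a : α)
    (hκ : ∀ B : Set (κ → Option α), Ins a B → ε / 2 ≤ dn B → ∃ V : Subspace M (Option α) κ, ∀ v, V v ∈ B)
    (ι : Type) [Fintype ι] [DecidableEq ι] (Y : Type) [Fintype Y] [Nonempty Y] (E : Y → Set (ι ⊕ κ → Option α))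
    (hE : ∀ y, Ins a (E y)) :
    ∃ E' : (κ → Option α) × Y → Set (ι → Option α), (∀ y', Ins a (E' y')) ∧
      (∀ z y x, x ∈ E' (z, y) → Sum.elim x z ∈ E y) ∧
      (ε * (Fintype.card Y * Fintype.card (ι ⊕ κ → Option α)) < ∑ y, ∑ w, ind (E y) w →
        ∑ y', ∑ x, ind (E' y') x ≤ (∑ y, ∑ w, ind (E y) w) -
          ε / 2 / Fintype.card (κ → Option α) * (Fintype.card Y * Fintype.card (ι ⊕ κ → Option α))) ∧
      ∀ g : Y → (ι ⊕ κ → Option α) → ℝ,
        (∀ y, ∀ V : Subspace M (Option α) (ι ⊕ κ), (∀ v, V v ∈ E y) → ∑ v, g y (V v) ≤ 0) →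
        ∑ y, ∑ w, ind (E y) w * g y w ≤
          ∑ y' : (κ → Option α) × Y, ∑ x : ι → Option α, ind (E' y') x * g y'.2 (Sum.elim x y'.1) := by
  obtain ⟨R, hR1, hR2, hR3⟩ := tfam_part hε a hκ
  let S : Y → (ι → Option α) → Set (κ → Option α) := fun y x => {z | Sum.elim x z ∈ E y}
  have hS : ∀ y x, Ins a (S y x) := by
    intro y x
    rw [ins_iff]
    intro z z' hzz
    refine ins_iff.1 (hE y) _ _ ?_
    rw [getA_elim, getA_elim, hzz]
  have hSx : ∀ y x x', getA a x = getA a x' → S y x = S y x' := by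
    intro y x x' h
    ext z
    refine ins_iff.1 (hE y) _ _ ?_
    rw [getA_elim, getA_elim, h]
  let E' : (κ → Option α) × Y → Set (ι → Option α) :=
    fun p => {x | Sum.elim x p.1 ∈ E p.2 ∧ p.1 ∉ R (S p.2 x)}
  have key : ∀ y x z, ind (E y) (Sum.elim x z) = ind (E' (z, y)) x + ind (R (S y x)) z := by
    intro y x z
    by_cases h1 : z ∈ R (S y x)
    · have h2 : Sum.elim x z ∈ E y := hR1 _ (hS y x) h1
      rw [ind_of_mem h2, ind_of_mem h1, ind_of_notMem (A := E' (z, y)) (fun h => h.2 h1), zero_add]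
    · rw [ind_of_notMem h1, add_zero]
      by_cases h2 : Sum.elim x z ∈ E y
      · rw [ind_of_mem h2, ind_of_mem (A := E' (z, y)) ⟨h2, h1⟩]
      · rw [ind_of_notMem h2, ind_of_notMem (A := E' (z, y)) (fun h => h2 h.1)]
  refine ⟨E', ?_, fun z y x h => h.1, ?_, ?_⟩
  · rintro ⟨z, y⟩
    rw [ins_iff]
    intro x x' hx
    have e1 : (Sum.elim x z ∈ E y ↔ Sum.elim x' z ∈ E y) :=
      ins_iff.1 (hE y) _ _ (by rw [getA_elim, getA_elim, hx])
    have e2 := hSx y x x' hx
    show (Sum.elim x z ∈ E y ∧ z ∉ R (S y x)) ↔ (Sum.elim x' z ∈ E y ∧ z ∉ R (S y x'))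
    rw [e1, e2]
  · intro hlt
    have hA : ∑ y, ∑ w, ind (E y) w
        = (∑ y', ∑ x, ind (E' y') x) + ∑ y, ∑ x, ∑ z, ind (R (S y x)) z := by
      have h1 : ∑ y', ∑ x, ind (E' y') x = ∑ y, ∑ x, ∑ z, ind (E' (z, y)) x :=
        tfam_comm (fun y x z => ind (E' (z, y)) x)
      rw [h1, ← Finset.sum_add_distrib]
      refine Finset.sum_congr rfl fun y _ => ?_
      rw [sum_word, ← Finset.sum_add_distrib]
      refine Finset.sum_congr rfl fun x _ => ?_
      rw [← Finset.sum_add_distrib]
      exact Finset.sum_congr rfl fun z _ => key y x z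
    have hN : (0 : ℝ) < Fintype.card (κ → Option α) := by exact_mod_cast Fintype.card_pos
    have hI : (0 : ℝ) < Fintype.card (ι → Option α) := by exact_mod_cast Fintype.card_pos
    have hB : ∑ y, ∑ x, dn (S y x)
        = (∑ y, ∑ w, ind (E y) w) / Fintype.card (κ → Option α) := by
      rw [Finset.sum_div]
      refine Finset.sum_congr rfl fun y _ => ?_
      rw [show ∑ x, dn (S y x) = dn (E y) * Fintype.card (ι → Option α) from sum_dn (E y)]
      unfold dn
      rw [card_word]
      field_simp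
    have hC : ∑ y, ∑ x, dn (S y x) ≤ ε / 2 * (Fintype.card Y * Fintype.card (ι → Option α))
        + ∑ y, ∑ x, ∑ z, ind (R (S y x)) z := by
      have h1 : ∑ y, ∑ x, dn (S y x) ≤ ∑ y, ∑ x, (ε / 2 + ∑ z, ind (R (S y x)) z) :=
        Finset.sum_le_sum fun y _ => Finset.sum_le_sum fun x _ => hR3 _ (hS y x)
      refine h1.trans (le_of_eq ?_)
      simp only [Finset.sum_add_distrib]
      congr 1
      simp only [Finset.sum_const, Finset.card_univ, nsmul_eq_mul]
      ring
    have hD : ε * (Fintype.card Y * Fintype.card (ι → Option α)) < ∑ y, ∑ x, dn (S y x) := by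
      rw [hB, lt_div_iff₀ hN]
      refine lt_of_eq_of_lt ?_ hlt
      rw [card_word]
      ring
    have hE2 : ε / 2 / Fintype.card (κ → Option α) * (Fintype.card Y * Fintype.card (ι ⊕ κ → Option α))
        = ε / 2 * (Fintype.card Y * Fintype.card (ι → Option α)) := by
      rw [card_word]
      field_simp
    rw [hE2]
    linarith
  · intro g hg
    have h1 : ∑ y' : (κ → Option α) × Y, ∑ x : ι → Option α, ind (E' y') x * g y'.2 (Sum.elim x y'.1)
        = ∑ y, ∑ x, ∑ z, ind (E' (z, y)) x * g y (Sum.elim x z) :=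
      tfam_comm (fun y x z => ind (E' (z, y)) x * g y (Sum.elim x z))
    rw [h1]
    refine Finset.sum_le_sum fun y _ => ?_
    rw [sum_word]
    refine Finset.sum_le_sum fun x _ => ?_
    have h2 : ∑ z, ind (E y) (Sum.elim x z) * g y (Sum.elim x z)
        = ∑ z, ind (E' (z, y)) x * g y (Sum.elim x z)
          + ∑ z, ind (R (S y x)) z * g y (Sum.elim x z) := by
      rw [← Finset.sum_add_distrib]
      refine Finset.sum_congr rfl fun z _ => ?_
      rw [key y x z]
      ring
    have h3 : ∑ z, ind (R (S y x)) z * g y (Sum.elim x z) ≤ 0 := by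
      refine hR2 _ (hS y x) (fun z => g y (Sum.elim x z)) fun V hV => ?_
      have h4 := hg y (fixL x V) (fun v => by
        rw [fixL_apply]
        exact hV v)
      simpa only [fixL_apply] using h4
    rw [h2]
    linarith

end Pool.Agent.H81.DH
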