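import Pool.Agent.H81.DH.TFam

/-!
JOB DH-TILE1. Insensitive sets have the tiling property.

PROOF. See the text in TFam.lean: induction on `t` with `til_family` (`κ` the type of `ins_sub` for `M`, `ε/2`), the statement
of the induction being: for every `t` there is a finite type `ι` such that for all `a`, all nonempty finite `Y`, all families
`E : Y → Set (ι → Option α)` of insensitive sets with `∑_y ∑_x ind (E y) x ≤ (t η + ε) card Y card (ι → Option α)`,
`η = (ε/2)/card (κ → Option α)`, and all `g : Y → (ι → Option α) → ℝ`, `g ≤ 1`, with `∑_v g y (V v) ≤ 0` for all subspaces `V` of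
dimension `M` inside `E y`: `∑_y ∑_x ind (E y) x * g y x ≤ ε card Y card (ι → Option α)`. Base `t = 0`: trivial since `g ≤ 1`
(any `ι`). Step: `ι ⊕ κ`, `til_family`; if the sum of `ind` is at most `ε card ..` it is trivial, otherwise the induction
hypothesis for `E'` and `Y' = (κ → Option α) × Y`. Finally `Y = Unit` and `t` with `1 ≤ t η + ε`.
-/

set_option autoImplicit false

open Combinatorics

namespace Pool.Agent.H81.DH

/-- the trivial bound -/
theorem tile1_trivial {X Y : Type} [Fintype X] [Fintype Y] (E : Y → Set X) (g : Y → X → ℝ)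
    (hg : ∀ y x, g y x ≤ 1) :
    ∑ y, ∑ x, ind (E y) x * g y x ≤ ∑ y, ∑ x, ind (E y) x :=
  Finset.sum_le_sum fun y _ => Finset.sum_le_sum fun x _ =>
    mul_le_of_le_one_right (ind_nonneg _ _) (hg y x)

/-- the induction -/
theorem tile1_ind {α : Type} [Fintype α] [Nonempty α] (M : Type) [Fintype M] [DecidableEq M] {ε : ℝ}
    (hε : 0 < ε) (κ : Type) [Fintype κ] [DecidableEq κ]
    (hκ : ∀ (a : α) (B : Set (κ → Option α)), Ins a B → ε / 2 ≤ dn B →
      ∃ V : Subspace M (Option α) κ, ∀ v, V v ∈ B) (t : ℕ) :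
    ∃ (ι : Type) (_ : Fintype ι) (_ : DecidableEq ι), ∀ (a : α) (Y : Type) [Fintype Y] [Nonempty Y]
      (E : Y → Set (ι → Option α)), (∀ y, Ins a (E y)) →
      ∑ y, ∑ x, ind (E y) x ≤ (t * (ε / 2 / Fintype.card (κ → Option α)) + ε) *
        (Fintype.card Y * Fintype.card (ι → Option α)) →
      ∀ g : Y → (ι → Option α) → ℝ, (∀ y x, g y x ≤ 1) →
      (∀ y, ∀ V : Subspace M (Option α) ι, (∀ v, V v ∈ E y) → ∑ v, g y (V v) ≤ 0) →
      ∑ y, ∑ x, ind (E y) x * g y x ≤ ε * (Fintype.card Y * Fintype.card (ι → Option α)) := by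
  induction t with
  | zero =>
    refine ⟨Empty, inferInstance, inferInstance, ?_⟩
    intro a Y _ _ E _ hs g hg _
    refine (tile1_trivial E g hg).trans ?_
    simpa using hs
  | succ t ih =>
    obtain ⟨ι, _, _, ih⟩ := ih
    refine ⟨ι ⊕ κ, inferInstance, inferInstance, ?_⟩
    intro a Y _ _ E hE hs g hg hV
    by_cases hsm : ∑ y, ∑ w, ind (E y) w ≤
        ε * (Fintype.card Y * Fintype.card (ι ⊕ κ → Option α))
    · exact (tile1_trivial E g hg).trans hsm
    push Not at hsm
    obtain ⟨E', hE', hsub, hdec, hgE⟩ := til_family hε a (hκ a) ι Y E hE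
    have hdec := hdec hsm
    refine (hgE g hV).trans ?_
    have hcard : ((Fintype.card ((κ → Option α) × Y) : ℕ) : ℝ) * Fintype.card (ι → Option α) =
        Fintype.card Y * Fintype.card (ι ⊕ κ → Option α) := by
      rw [card_word, Fintype.card_prod]
      push_cast
      ring
    have hmain := ih a ((κ → Option α) × Y) E' hE' ?_
      (fun y' x => g y'.2 (Sum.elim x y'.1)) (fun y' x => hg _ _) ?_
    · rw [hcard] at hmain
      exact hmain
    · rw [hcard]
      refine hdec.trans ?_
      have h1 : ∑ y, ∑ w, ind (E y) w ≤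
          ((t : ℝ) + 1) * (ε / 2 / Fintype.card (κ → Option α)) *
            (Fintype.card Y * Fintype.card (ι ⊕ κ → Option α)) +
          ε * (Fintype.card Y * Fintype.card (ι ⊕ κ → Option α)) := by
        refine hs.trans (le_of_eq ?_)
        push_cast
        ring
      linarith
    · rintro ⟨z, y⟩ V hVE
      have h1 := hV y (fixR V z) (fun v => by
        rw [fixR_apply]
        exact hsub z y (V v) (hVE v))
      simpa only [fixR_apply] using h1

theorem til_one {α : Type} [Fintype α] [Nonempty α] (hα : DHJ α) (M : Type) [Fintype M] [DecidableEq M] {ε : ℝ}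
    (hε : 0 < ε) : ∃ (ι : Type) (_ : Fintype ι) (_ : DecidableEq ι),
      ∀ (a : α) (E : Set (ι → Option α)), Ins a E → Til M ε E := by
  obtain ⟨κ, _, _, hκ⟩ := ins_sub hα M (half_pos hε)
  have hη : 0 < ε / 2 / (Fintype.card (κ → Option α) : ℝ) := by
    have : (0 : ℝ) < Fintype.card (κ → Option α) := by exact_mod_cast Fintype.card_pos
    positivity
  obtain ⟨t, ht⟩ := exists_nat_gt (1 / (ε / 2 / (Fintype.card (κ → Option α) : ℝ)))
  obtain ⟨ι, hι1, hι2, h⟩ := tile1_ind M hε κ hκ t
  refine ⟨ι, hι1, hι2, ?_⟩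
  intro a E hE g hg hV
  have ht1 : 1 ≤ (t : ℝ) * (ε / 2 / (Fintype.card (κ → Option α) : ℝ)) + ε := by
    rw [div_lt_iff₀ hη] at ht
    linarith
  have h1 := h a Unit (fun _ => E) (fun _ => hE) ?_ (fun _ => g) (fun _ x => hg x) (fun _ V hVE => hV V hVE)
  · simpa using h1
  · have h2 := sum_ind_le E
    have h3 : (0 : ℝ) ≤ Fintype.card (ι → Option α) := Nat.cast_nonneg _
    have h4 : (Fintype.card Unit : ℝ) = 1 := by simp
    rw [h4, one_mul]
    rw [Fintype.sum_unique]
    nlinarith

end Pool.Agent.H81.DH
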