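import Pool.Agent.H81.DH.Tile1

/-!
JOB DH-TILE2. Intersections of insensitive sets, one for each letter, have the tiling property.

PROOF. `til_fin`, by induction on the Finset `s` of letters, for all `M`, `ε`. `s = ∅`: the set is everything, `ι = M` and the
identity subspace (`default`, `idxFun = Sum.inr`): `∑ g ≤ 0`. `insert a s`: let `M₁` be the type of `til_fin` for
`(s, M, ε/2)` and `ι` the type of `til_one` for `(M₁, ε/2)`. Let `g ≤ 1` have `∑ g (V v) ≤ 0` for all `V : Subspace M _ ι` inside
`E = E_a ∩ E_s`, `E_s = ⋂_{b∈s} E b`. For `V₁ : Subspace M₁ _ ι` inside `E_a`: the sets `{v | V₁ v ∈ E b}` are insensitive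
(`Ins.pull`), and a subspace `V₂` of `M₁ → _` inside their intersection gives `comp V₁ V₂` inside `E`; so by `til_fin`
`∑_v ind E_s (V₁ v) * g (V₁ v) ≤ (ε/2) card`. So `g' x = ind E_s x * g x - ε/2` is `≤ 1` and satisfies the hypothesis of
`Til M₁ (ε/2) E_a`, and `∑ ind E_a * g' ≤ (ε/2) card`, i.e. `∑ ind E * g ≤ (ε/2) ∑ ind E_a + (ε/2) card ≤ ε card`.
-/

set_option autoImplicit false

open Combinatorics

namespace Pool.Agent.H81.DH

theorem til_fin {α : Type} [Fintype α] [Nonempty α] (hα : DHJ α) (s : Finset α) :
    ∀ (M : Type) [Fintype M] [DecidableEq M] (ε : ℝ), 0 < ε →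
      ∃ (ι : Type) (_ : Fintype ι) (_ : DecidableEq ι), ∀ E : α → Set (ι → Option α), (∀ a ∈ s, Ins a (E a)) →
        Til M ε {x | ∀ a ∈ s, x ∈ E a} := by
  classical
  induction s using Finset.induction_on with
  | empty =>
    intro M _ _ ε hε
    refine ⟨M, inferInstance, inferInstance, fun E _ => ?_⟩
    intro g hg1 hg2
    have h0 : ∑ v : M → Option α, g v ≤ 0 := by
      have h1 := hg2 (⟨Sum.inr, fun e => ⟨e, rfl⟩⟩ : Subspace M (Option α) M) (by simp)
      refine le_trans (le_of_eq ?_) h1
      refine Finset.sum_congr rfl fun v _ => ?_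
      congr 1
    have h1 : ∑ x : M → Option α, ind {x : M → Option α | ∀ a ∈ (∅ : Finset α), x ∈ E a} x * g x =
        ∑ v : M → Option α, g v := by
      refine Finset.sum_congr rfl fun v _ => ?_
      rw [ind_of_mem (by simp), one_mul]
    rw [h1]
    exact h0.trans (by positivity)
  | insert a s ha ih =>
    intro M _ _ ε hε
    obtain ⟨M₁, _, _, h1⟩ := ih M (ε / 2) (half_pos hε)
    obtain ⟨ι, _, _, h2⟩ := til_one hα M₁ (half_pos hε)
    refine ⟨ι, inferInstance, inferInstance, fun E hE => ?_⟩
    intro g hg1 hg2
    set Es : Set (ι → Option α) := {x | ∀ b ∈ s, x ∈ E b} with hEs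
    have key := h2 a (E a) (hE a (Finset.mem_insert_self a s)) (fun x => ind Es x * g x - ε / 2)
      ?_ ?_
    · have e1 : ∀ x, ind {x : ι → Option α | ∀ b ∈ insert a s, x ∈ E b} x * g x =
          ind (E a) x * (ind Es x * g x - ε / 2) + ε / 2 * ind (E a) x := by
        intro x
        by_cases hx : x ∈ E a
        · by_cases hx' : x ∈ Es
          · have h3 : x ∈ {x : ι → Option α | ∀ b ∈ insert a s, x ∈ E b} := by
              intro b hb
              rcases Finset.mem_insert.1 hb with rfl | hb
              · exact hx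
              · exact hx' b hb
            rw [ind_of_mem h3, ind_of_mem hx, ind_of_mem hx']
            ring
          · have h3 : x ∉ {x : ι → Option α | ∀ b ∈ insert a s, x ∈ E b} := fun h =>
              hx' fun b hb => h b (Finset.mem_insert_of_mem hb)
            rw [ind_of_notMem h3, ind_of_mem hx, ind_of_notMem hx']
            ring
        · have h3 : x ∉ {x : ι → Option α | ∀ b ∈ insert a s, x ∈ E b} := fun h =>
            hx (h a (Finset.mem_insert_self a s))
          rw [ind_of_notMem h3, ind_of_notMem hx]
          ring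
      rw [Finset.sum_congr rfl fun x _ => e1 x, Finset.sum_add_distrib, ← Finset.mul_sum]
      have h4 : ε / 2 * ∑ x, ind (E a) x ≤ ε / 2 * Fintype.card (ι → Option α) :=
        mul_le_mul_of_nonneg_left (sum_ind_le _) (half_pos hε).le
      linarith
    · intro x
      have h3 : ind Es x * g x ≤ 1 := by
        by_cases hx : x ∈ Es
        · rw [ind_of_mem hx, one_mul]
          exact hg1 x
        · rw [ind_of_notMem hx, zero_mul]
          exact zero_le_one
      linarith [half_pos hε]
    · intro V hV
      rw [Finset.sum_sub_distrib, Finset.sum_const, Finset.card_univ, nsmul_eq_mul]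
      have h3 := h1 (fun b => {v | V v ∈ E b})
        (fun b hb => (hE b (Finset.mem_insert_of_mem hb)).pull V) (fun v => g (V v))
        (fun v => hg1 _) ?_
      · have e1 : ∀ v : M₁ → Option α, ind {x : M₁ → Option α | ∀ b ∈ s, x ∈ {v | V v ∈ E b}} v =
            ind Es (V v) := by
          intro v
          by_cases hv : V v ∈ Es
          · rw [ind_of_mem hv]
            exact ind_of_mem hv
          · rw [ind_of_notMem hv]
            exact ind_of_notMem hv
        have h4 : ∑ v : M₁ → Option α, ind Es (V v) * g (V v) ≤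
            ε / 2 * Fintype.card (M₁ → Option α) := by
          refine le_trans (le_of_eq ?_) h3
          exact Finset.sum_congr rfl fun v _ => by rw [e1 v]
        linarith
      · intro U hU
        have h5 := hg2 (comp V U) ?_
        · simpa using h5
        · intro v b hb
          rw [comp_apply]
          rcases Finset.mem_insert.1 hb with rfl | hb
          · exact hV _
          · exact hU v b hb

theorem til_all {α : Type} [Fintype α] [Nonempty α] (hα : DHJ α) (M : Type) [Fintype M] [DecidableEq M] {ε : ℝ}
    (hε : 0 < ε) : ∃ (ι : Type) (_ : Fintype ι) (_ : DecidableEq ι),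
      ∀ E : α → Set (ι → Option α), (∀ a, Ins a (E a)) → Til M ε {x | ∀ a, x ∈ E a} := by
  obtain ⟨ι, h1, h2, h⟩ := til_fin hα Finset.univ M ε hε
  refine ⟨ι, h1, h2, fun E hE => ?_⟩
  simpa using h E fun a _ => hE a

end Pool.Agent.H81.DH
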